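import Pool.Agent.Helper66.SB.Goals

set_option autoImplicit false

open Module MvPolynomial

namespace Pool.Agent.Helper66.SB

open Helper18.Shgh

theorem XF_monomial (ξ : Polynomial ℂ →ₗ[ℂ] ℂ) (j : ℕ) (e : Fin 2 →₀ ℕ) (c : ℂ) :
    XF ξ j (monomial e c) = if e 0 = j then c • ξ (Polynomial.X ^ (e 1)) else 0 := by
  have h1 : (monomial e c : R2) = c • (basisMonomials (Fin 2) ℂ e) := by
    rw [coe_basisMonomials, smul_monomial, smul_eq_mul, mul_one]
  rw [h1, map_smul, XF, Basis.constr_basis]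
  split_ifs
  · rfl
  · rw [smul_zero]

theorem XF_pow (ξ : Polynomial ℂ →ₗ[ℂ] ℂ) (j a b : ℕ) :
    XF ξ j (X 0 ^ a * X 1 ^ b) = if a = j then ξ (Polynomial.X ^ b) else 0 := by
  have e1 : (X 0 ^ a * X 1 ^ b : R2) =
      monomial (Finsupp.single 0 a + Finsupp.single 1 b) 1 := by
    rw [X_pow_eq_monomial, X_pow_eq_monomial, monomial_mul, one_mul]
  rw [e1, XF_monomial]
  simp

theorem XF_poly (ξ : Polynomial ℂ →ₗ[ℂ] ℂ) (j a : ℕ) (p : Polynomial ℂ) :
    XF ξ j (X 0 ^ a * Polynomial.aeval (X 1 : R2) p) = if a = j then ξ p else 0 := by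
  induction p using Polynomial.induction_on' with
  | add p q hp hq =>
    rw [map_add, mul_add, map_add, hp, hq]
    split_ifs
    · rw [map_add]
    · rw [add_zero]
  | monomial n c =>
    have e1 : (X 0 ^ a * Polynomial.aeval (X 1 : R2) (Polynomial.monomial n c) : R2) =
        c • (X 0 ^ a * X 1 ^ n) := by
      rw [Polynomial.aeval_monomial, smul_eq_C_mul, MvPolynomial.algebraMap_eq]
      ring
    have e2 : (Polynomial.monomial n c : Polynomial ℂ) = c • Polynomial.X ^ n := by
      rw [Polynomial.smul_X_eq_monomial]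
    rw [e1, map_smul, XF_pow, e2, map_smul]
    split_ifs
    · rfl
    · rw [smul_zero]

theorem gXV : G_XV := by
  intro N j ξ
  refine ⟨XF_pow ξ j, ?_, ?_⟩
  · intro M G hM
    induction G using MvPolynomial.induction_on' with
    | monomial e c =>
      rw [X_pow_eq_monomial, monomial_mul, XF_monomial, if_neg]
      rw [Finsupp.add_apply, Finsupp.single_eq_same]
      omega
    | add p q hp hq => rw [mul_add, map_add, hp, hq, add_zero]
  · intro hj hξ G hG
    rw [mem_mI_pow] at hG
    let θ : R2 →ₐ[ℂ] R2 := aeval ![X 0, X 1 - 1]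
    have h1 : θ (tau (![0, 1] : Fin 2 → ℂ) G) = G := by
      have h2 : θ.comp (tau (![0, 1] : Fin 2 → ℂ)) = AlgHom.id ℂ R2 := by
        apply MvPolynomial.algHom_ext
        intro i
        fin_cases i <;> simp [θ, tau]
      exact DFunLike.congr_fun h2 G
    rw [← h1, (tau (![0, 1] : Fin 2 → ℂ) G).as_sum, map_sum, map_sum]
    refine Finset.sum_eq_zero fun e he => ?_
    have h2 : N ≤ e.degree := by
      by_contra hlt
      exact (mem_support_iff.1 he) (hG e (not_le.1 hlt))
    have h3 : e.degree = e 0 + e 1 := by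
      rw [Finsupp.degree_eq_sum, Fin.sum_univ_two]
    have h4 : θ (monomial e (coeff e (tau (![0, 1] : Fin 2 → ℂ) G))) =
        (coeff e (tau (![0, 1] : Fin 2 → ℂ) G)) •
          (X 0 ^ (e 0) * Polynomial.aeval (X 1 : R2) ((Polynomial.X - 1 : Polynomial ℂ) ^ (e 1))) := by
      rw [aeval_monomial, Finsupp.prod_fintype _ _ (fun i => pow_zero _), Fin.prod_univ_two,
        smul_eq_C_mul, MvPolynomial.algebraMap_eq]
      simp
    rw [h4, map_smul, XF_poly]
    split_ifs with h5
    · obtain ⟨t, ht⟩ : ∃ t, e 1 = (N - j) + t := ⟨e 1 - (N - j), by omega⟩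
      rw [ht, pow_add, hξ, smul_zero]
    · rw [smul_zero]

end Pool.Agent.Helper66.SB
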