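import Pool.Agent.Helper66.SB.FinalA
import Pool.Agent.Helper66.SB.XV
import Pool.Agent.Helper66.SB.LOW

/-!
# Project SB (MP_d3128a_ag): the main statement, all goals proved.
-/

set_option autoImplicit false

namespace Pool.Agent.Helper66.SB

theorem final : G_MAIN := finalA gXV gLOW

end Pool.Agent.Helper66.SB
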