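import Pool.Agent.Helper66.SB.Goals

set_option autoImplicit false

namespace Pool.Agent.Helper66.SB

theorem sum_range_Icc {M : Type*} [AddCommMonoid M] (f : ℕ → M) (m : ℕ) :
    ∑ i ∈ Finset.range m, f (i + 1) = ∑ j ∈ Finset.Icc 1 m, f j := by
  induction m with
  | zero => simp
  | succ m ih => rw [Finset.sum_range_succ, Finset.sum_Icc_succ_top (by omega), ih]

theorem gCMB (hCP : G_CP) : G_CMB := by
  intro u m n w0 a0 v hn hv hw hb
  classical
  -- the numbers `K`
  let K : ℕ → ℕ := fun i => ∑ a, (i - (m - n a))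
  have hK : ∀ i : ℕ, (i : ℤ) * u - K i = ∑ a, ((min i (m - n a) : ℕ) : ℤ) := by
    intro i
    have h1 : (∑ a, ((min i (m - n a) : ℕ) : ℤ)) + (K i : ℤ) = ∑ _a : Fin u, (i : ℤ) := by
      simp only [K]
      rw [Nat.cast_sum, ← Finset.sum_add_distrib]
      refine Finset.sum_congr rfl fun a _ => ?_
      omega
    rw [Finset.sum_const, Finset.card_univ, Fintype.card_fin, nsmul_eq_mul] at h1
    linarith
  have hvK : ∀ i : ℕ, 1 ≤ i → i ≤ m → (v i : ℤ) - K i = -bj u m n a0 i := by
    intro i h1 h2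
    rw [hv i h1 h2, bj, ← hK i]
    ring
  have hanti1 : ∀ i j : ℕ, i ≤ j → bj u m n a0 j ≤ bj u m n a0 i := by
    intro i j hij
    rw [bj, bj]
    have : ∑ l, ((min i (m - n l) : ℕ) : ℤ) ≤ ∑ l, ((min j (m - n l) : ℕ) : ℤ) :=
      Finset.sum_le_sum fun l _ => by
        have : min i (m - n l) ≤ min j (m - n l) := by omega
        exact_mod_cast this
    linarith
  have hle0 : ∀ i : ℕ, bj u m n a0 i ≤ a0 := by
    intro i
    rw [bj]
    have : 0 ≤ ∑ l, ((min i (m - n l) : ℕ) : ℤ) := Finset.sum_nonneg fun l _ => by positivity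
    linarith
  -- two simple facts on sums
  have hneg : (∀ j ∈ Finset.Icc 1 m, bj u m n a0 j ≤ 0) →
      ∑ j ∈ Finset.Icc 1 m, max (-bj u m n a0 j) 0 = -∑ j ∈ Finset.Icc 1 m, bj u m n a0 j := by
    intro h
    rw [← Finset.sum_neg_distrib]
    exact Finset.sum_congr rfl fun j hj => max_eq_left (by linarith [h j hj])
  have hpos : (∀ j ∈ Finset.Icc 1 m, 0 ≤ bj u m n a0 j) →
      ∑ j ∈ Finset.Icc 1 m, max (-bj u m n a0 j) 0 = 0 := by
    intro h
    exact Finset.sum_eq_zero fun j hj => max_eq_right (by linarith [h j hj])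
  -- the case of `λ = 0`
  have hzero : (w0 = 0 ∨ a0 ≤ 0 ∨ m = 0) → ∃ l : Fin u → ℕ, (∀ a, l a ≤ m) ∧
      ((∀ a, l a = 0) ∨ (0 < a0 ∧ 1 ≤ w0)) ∧
      ((∑ i ∈ Finset.range m, (v (i + 1) - ∑ a, ee m (n a) (l a) (i + 1)) +
        (w0 - ∑ a, ee m (n a) (l a) 0) : ℕ) : ℤ) ≤
      max ((w0 : ℤ) - ∑ j ∈ Finset.Icc 1 m, bj u m n a0 j) 0 := by
    intro h0
    refine ⟨fun _ => 0, fun _ => Nat.zero_le _, Or.inl fun _ => rfl, ?_⟩
    have e1 : ∀ i, ∑ a, ee m (n a) 0 (i + 1) = K (i + 1) := by
      intro i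
      refine Finset.sum_congr rfl fun a _ => ?_
      simp [ee]
    have e2 : ∑ a, ee m (n a) 0 0 = 0 := by
      refine Finset.sum_eq_zero fun a _ => ?_
      simp [ee]
    simp only [e1, e2, Nat.sub_zero]
    rw [sum_range_Icc (fun i => v i - K i) m, Nat.cast_add, Nat.cast_sum]
    have e3 : ∑ j ∈ Finset.Icc 1 m, ((v j - K j : ℕ) : ℤ) =
        ∑ j ∈ Finset.Icc 1 m, max (-bj u m n a0 j) 0 := by
      refine Finset.sum_congr rfl fun j hj => ?_
      rw [Finset.mem_Icc] at hj
      rw [← hvK j hj.1 hj.2]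
      omega
    rw [e3]
    rcases h0 with h0 | h0 | h0
    · subst h0
      rcases hb with hb | hb
      · rw [hpos fun j hj => hb.trans (hanti1 j m (Finset.mem_Icc.1 hj).2)]
        simp
      · have h1 : ∀ j ∈ Finset.Icc 1 m, bj u m n a0 j ≤ 0 := by
          intro j hj
          have h2 := Finset.single_le_sum (f := fun j => max (bj u m n a0 j) 0)
            (fun i _ => le_max_right _ _) hj
          have h3 : bj u m n a0 j ≤ max (bj u m n a0 j) 0 := le_max_left _ _
          have h4 : ((0 : ℕ) : ℤ) = 0 := rfl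
          rw [h4] at hb
          exact h3.trans (h2.trans hb)
        rw [hneg h1]
        refine le_trans (le_of_eq ?_) (le_max_left _ _)
        push_cast
        ring
    · rw [hneg fun j _ => (hle0 j).trans h0]
      refine le_trans (le_of_eq ?_) (le_max_left _ _)
      ring
    · subst h0
      simp
  rcases Nat.eq_zero_or_pos w0 with h0 | hw0
  · exact hzero (Or.inl h0)
  rcases le_or_gt a0 0 with ha0 | ha0
  · exact hzero (Or.inr (Or.inl ha0))
  rcases Nat.eq_zero_or_pos m with h0 | hm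
  · exact hzero (Or.inr (Or.inr h0))
  have hau : a0 ≤ u := by
    rcases hw with h | h
    · omega
    · exact h
  -- the general case
  let A : Finset (Fin u) := Finset.univ.filter fun a => n a = m
  let α : ℕ → ℕ := fun j => (bj u m n a0 j).toNat
  have hα1 : α 1 ≤ A.card := by
    have h1 : ∑ l, ((min 1 (m - n l) : ℕ) : ℤ) + A.card = u := by
      have e1 : (A.card : ℤ) = ∑ l : Fin u, (if n l = m then 1 else 0 : ℤ) := by
        rw [Finset.card_filter]
        push_cast
        rfl
      rw [e1, ← Finset.sum_add_distrib]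
      have e2 : ∑ l : Fin u, (((min 1 (m - n l) : ℕ) : ℤ) + (if n l = m then 1 else 0 : ℤ)) =
          ∑ _l : Fin u, (1 : ℤ) := by
        refine Finset.sum_congr rfl fun l _ => ?_
        have := hn l
        split_ifs with h
        · have : min 1 (m - n l) = 0 := by omega
          rw [this]; rfl
        · have : min 1 (m - n l) = 1 := by omega
          rw [this]; rfl
      rw [e2]
      simp
    have h2 : bj u m n a0 1 ≤ A.card := by
      rw [bj]
      linarith
    simp only [α]
    omega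
  obtain ⟨l, hl1, hl2, hl3⟩ := hCP u m A α (fun j _ _ => by
    have := hanti1 j (j + 1) (Nat.le_succ j)
    simp only [α]
    omega) (fun _ => hα1)
  refine ⟨l, hl1, Or.inr ⟨ha0, hw0⟩, ?_⟩
  have hee : ∀ i : ℕ, 1 ≤ i → i ≤ m → ∑ a, ee m (n a) (l a) i + α i = K i := by
    intro i hi him
    rw [← hl3 i hi him, Finset.card_filter, ← Finset.sum_filter]
    have e1 : ∑ a ∈ A.filter (fun a => i ≤ l a), 1 =
        ∑ a, (if a ∈ A ∧ i ≤ l a then 1 else 0) := by
      rw [← Finset.sum_filter]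
      refine Finset.sum_congr ?_ fun _ _ => rfl
      ext a
      simp
    rw [e1, ← Finset.sum_add_distrib]
    refine Finset.sum_congr rfl fun a _ => ?_
    by_cases ha : a ∈ A
    · have h1 : n a = m := (Finset.mem_filter.1 ha).2
      by_cases h2 : i ≤ l a
      · simp only [ee, ha, h2, true_and, if_true, h1]
        split_ifs <;> omega
      · simp only [ee, ha, h2, if_false, and_false, h1]
        split_ifs <;> omega
    · have h1 := hl2 a ha
      simp only [ee, ha, false_and, if_false, h1]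
      split_ifs <;> omega
  have hee0 : ∑ a, ee m (n a) (l a) 0 = ∑ j ∈ Finset.Icc 1 m, α j := by
    have e1 : ∀ a, ee m (n a) (l a) 0 = ∑ j ∈ Finset.Icc 1 m, if a ∈ A ∧ j ≤ l a then 1 else 0 := by
      intro a
      by_cases ha : a ∈ A
      · have h1 : n a = m := (Finset.mem_filter.1 ha).2
        have h2 : ee m (n a) (l a) 0 = l a := by simp [ee, h1]
        rw [h2, ← Finset.sum_filter]
        have e3 : (Finset.Icc 1 m).filter (fun j => a ∈ A ∧ j ≤ l a) = Finset.Icc 1 (l a) := by
          ext j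
          have := hl1 a
          simp only [Finset.mem_filter, Finset.mem_Icc, ha, true_and]
          omega
        rw [e3]
        simp
      · have h1 := hl2 a ha
        simp [ee, h1, ha]
    rw [Finset.sum_congr rfl fun a _ => e1 a, Finset.sum_comm]
    refine Finset.sum_congr rfl fun j hj => ?_
    rw [Finset.mem_Icc] at hj
    rw [← hl3 j hj.1 hj.2, ← Finset.sum_filter]
    have e3 : (Finset.univ.filter fun a => a ∈ A ∧ j ≤ l a) = A.filter fun a => j ≤ l a := by
      ext a
      simp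
    rw [e3]
    simp
  rw [sum_range_Icc (fun i => v i - ∑ a, ee m (n a) (l a) i) m, Nat.cast_add, Nat.cast_sum, hee0]
  have e3 : ∑ j ∈ Finset.Icc 1 m, ((v j - ∑ a, ee m (n a) (l a) j : ℕ) : ℤ) =
      ∑ j ∈ Finset.Icc 1 m, max (-bj u m n a0 j) 0 := by
    refine Finset.sum_congr rfl fun j hj => ?_
    rw [Finset.mem_Icc] at hj
    have h1 := hvK j hj.1 hj.2
    have h2 := hee j hj.1 hj.2
    have h3 : (α j : ℤ) = max (bj u m n a0 j) 0 := by
      simp only [α]
      omega
    omega
  have e4 : ((∑ j ∈ Finset.Icc 1 m, α j : ℕ) : ℤ) =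
      ∑ j ∈ Finset.Icc 1 m, max (bj u m n a0 j) 0 := by
    rw [Nat.cast_sum]
    refine Finset.sum_congr rfl fun j _ => ?_
    simp only [α]
    omega
  have e5 : ((w0 - ∑ j ∈ Finset.Icc 1 m, α j : ℕ) : ℤ) =
      max ((w0 : ℤ) - ∑ j ∈ Finset.Icc 1 m, max (bj u m n a0 j) 0) 0 := by
    rw [← e4]
    omega
  rw [e3, e5]
  rcases hb with hb | hb
  · have h1 : ∀ j ∈ Finset.Icc 1 m, 0 ≤ bj u m n a0 j :=
      fun j hj => hb.trans (hanti1 j m (Finset.mem_Icc.1 hj).2)
    rw [hpos h1, zero_add, Finset.sum_congr rfl fun j hj => max_eq_left (h1 j hj)]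
  · have h1 : ∑ j ∈ Finset.Icc 1 m, max (-bj u m n a0 j) 0 -
        ∑ j ∈ Finset.Icc 1 m, max (bj u m n a0 j) 0 = -∑ j ∈ Finset.Icc 1 m, bj u m n a0 j := by
      rw [← Finset.sum_sub_distrib, ← Finset.sum_neg_distrib]
      refine Finset.sum_congr rfl fun j _ => ?_
      omega
    rw [max_eq_left (by linarith)]
    refine le_trans (le_of_eq ?_) (le_max_left _ _)
    linarith

end Pool.Agent.Helper66.SB
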