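import Pool.Agent.Helper66.SB.Goals

set_option autoImplicit false

namespace Pool.Agent.Helper66.SB

theorem gCP : G_CP := by
  intro u m A α hα h1
  classical
  have hanti : ∀ i j, 1 ≤ i → i ≤ j → j ≤ m → α j ≤ α i := by
    intro i j hi hij
    induction j, hij using Nat.le_induction with
    | base => intro _; exact le_rfl
    | succ j hj ih =>
      intro hjm
      exact (hα j (by omega) (by omega)).trans (ih (by omega))
  let e := A.equivFin
  let l : Fin u → ℕ := fun a => if h : a ∈ A then
    ((Finset.Icc 1 m).filter fun j => (e ⟨a, h⟩ : ℕ) < α j).card else 0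
  have hl : ∀ (a : Fin u) (h : a ∈ A) (j : ℕ), 1 ≤ j → j ≤ m →
      (j ≤ l a ↔ (e ⟨a, h⟩ : ℕ) < α j) := by
    intro a h j hj hjm
    have e1 : l a = ((Finset.Icc 1 m).filter fun j => (e ⟨a, h⟩ : ℕ) < α j).card := by
      simp only [l, dif_pos h]
    rw [e1]
    constructor
    · intro h2
      by_contra h3
      have h4 : ((Finset.Icc 1 m).filter fun j => (e ⟨a, h⟩ : ℕ) < α j) ⊆
          Finset.Icc 1 (j - 1) := by
        intro i hi
        rw [Finset.mem_filter, Finset.mem_Icc] at hi
        rw [Finset.mem_Icc]
        refine ⟨hi.1.1, ?_⟩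
        by_contra h5
        have h6 := hanti j i hj (by omega) hi.1.2
        omega
      have h5 := Finset.card_le_card h4
      rw [Nat.card_Icc] at h5
      omega
    · intro h2
      have h4 : Finset.Icc 1 j ⊆ ((Finset.Icc 1 m).filter fun j => (e ⟨a, h⟩ : ℕ) < α j) := by
        intro i hi
        rw [Finset.mem_Icc] at hi
        rw [Finset.mem_filter, Finset.mem_Icc]
        have h6 := hanti i j hi.1 hi.2 hjm
        exact ⟨⟨hi.1, by omega⟩, by omega⟩
      have h5 := Finset.card_le_card h4
      rw [Nat.card_Icc] at h5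
      omega
  refine ⟨l, ?_, ?_, ?_⟩
  · intro a
    by_cases h : a ∈ A
    · simp only [l, dif_pos h]
      refine (Finset.card_filter_le _ _).trans ?_
      rw [Nat.card_Icc]
      omega
    · simp only [l, dif_neg h]
      omega
  · intro a h
    simp only [l, dif_neg h]
  · intro j hj hjm
    have hαj : α j ≤ A.card := (hanti 1 j le_rfl hj hjm).trans (h1 (by omega))
    have h2 : (A.filter fun a => j ≤ l a).card =
        ((Finset.univ : Finset (Fin A.card)).filter fun h : Fin A.card => (h : ℕ) < α j).card := by
      apply Finset.card_bij (fun a ha => e ⟨a, (Finset.mem_filter.1 ha).1⟩)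
      · intro a ha
        rw [Finset.mem_filter] at ha ⊢
        exact ⟨Finset.mem_univ _, (hl a ha.1 j hj hjm).1 ha.2⟩
      · intro a ha b hb hab
        have := e.injective hab
        exact congrArg Subtype.val this
      · intro b hb
        rw [Finset.mem_filter] at hb
        refine ⟨(e.symm b : Fin u), ?_, ?_⟩
        · rw [Finset.mem_filter]
          refine ⟨(e.symm b).2, (hl _ (e.symm b).2 j hj hjm).2 ?_⟩
          have : (⟨(e.symm b : Fin u), (e.symm b).2⟩ : {x // x ∈ A}) = e.symm b := rfl
          rw [this, Equiv.apply_symm_apply]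
          exact hb.2
        · have : (⟨(e.symm b : Fin u), (e.symm b).2⟩ : {x // x ∈ A}) = e.symm b := rfl
          rw [this, Equiv.apply_symm_apply]
    rw [h2]
    have h3 : ((Finset.univ : Finset (Fin A.card)).filter fun h : Fin A.card => (h : ℕ) < α j).card = α j := by
      rw [Fin.card_filter_val_lt]
      omega
    exact h3

end Pool.Agent.Helper66.SB
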