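import Mathlib
import Pool.Agent.Helper18.ShghFinal
import Pool.Agent.Helper18.CuspMain

/-!
# Project SB (MP_d3128a_ag): systems `D + m C`, `C` a square-zero class. Definitions.

`R2 = ℂ[x, y]`, `V n` = polynomials of degree `≤ n` (`n : ℤ`), `mI P` = maximal ideal of the point
`P : Fin 2 → ℂ`, `SP n S P a` = polynomials in `V n` with multiplicity `≥ a i` at `P i`, `i ∈ S`
(all in `Helper18.Shgh`).
-/

set_option autoImplicit false

open Module MvPolynomial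

noncomputable section

namespace Pool.Agent.Helper66.SB

open Helper18.Shgh

/-- The derivation `∂ = F_y ∂_x - F_x ∂_y` along the curve `F = 0` (it kills `F`). -/
def dl (F : R2) : Derivation ℂ R2 R2 :=
  pderiv 1 F • (pderiv 0 : Derivation ℂ R2 R2) - pderiv 0 F • (pderiv 1 : Derivation ℂ R2 R2)

/-- The `j`-th power of `∂`. -/
def dn (F : R2) (j : ℕ) : R2 →ₗ[ℂ] R2 := ((dl F).toLinearMap : Module.End ℂ R2) ^ j

/-- Polynomials vanishing to order `≥ e` at the (smooth) point `R` of the curve `F = 0` along the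
curve: `(∂^j g)(R) = 0` for all `j < e`. -/
def OC (F : R2) (R : Fin 2 → ℂ) (e : ℕ) : Submodule ℂ R2 where
  carrier := {g | ∀ j < e, eval R (dn F j g) = 0}
  add_mem' := by
    intro a b ha hb j hj
    rw [map_add, map_add, ha j hj, hb j hj, add_zero]
  zero_mem' := by
    intro j _
    rw [map_zero, map_zero]
  smul_mem' := by
    intro c a ha j hj
    rw [map_smul, smul_eval, ha j hj, mul_zero]

theorem mem_OC {F : R2} {R : Fin 2 → ℂ} {e : ℕ} {g : R2} :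
    g ∈ OC F R e ↔ ∀ j < e, eval R (dn F j g) = 0 := Iff.rfl

/-- The substitution `x = R_0 + σ`, `y = R_1 + φ(σ)` (`σ` is the variable of `ℂ[X]`). -/
def br (R : Fin 2 → ℂ) (φ : Polynomial ℂ) : R2 →ₐ[ℂ] Polynomial ℂ :=
  aeval ![Polynomial.C (R 0) + Polynomial.X, Polynomial.C (R 1) + φ]

/-- The chart `x = R_0 + σ`, `y = R_1 + φ(σ) + τ`, with `σ = X 0`, `τ = X 1`. -/
def ch (R : Fin 2 → ℂ) (φ : Polynomial ℂ) : R2 →ₐ[ℂ] R2 :=
  aeval ![C (R 0) + X 0, C (R 1) + Polynomial.aeval (X 0 : R2) φ + X 1]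

/-- The scaling `τ = c T`: `X 0 ↦ X 0`, `X 1 ↦ c X 1`. -/
def sc (c : ℂ) : R2 →ₐ[ℂ] R2 := aeval ![X 0, C c * X 1]

/-- The functional: coefficient of `σ^j`, then `ξ` in the variable `T = X 1`. -/
def XF (ξ : Polynomial ℂ →ₗ[ℂ] ℂ) (j : ℕ) : R2 →ₗ[ℂ] ℂ :=
  (basisMonomials (Fin 2) ℂ).constr ℂ fun e => if e 0 = j then ξ (Polynomial.X ^ (e 1)) else 0

/-- The orders `e_(i,l)` of the slices lemma: `m` = number of levels, `N = m - ν` the multiplicity,
`l` the number `λ`. -/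
def ee (m N l i : ℕ) : ℕ := if i = 0 then l - (m - N) else (if i ≤ l then i - 1 else i) - (m - N)

/-- The speed `θ`. -/
def th (c l : ℕ) : ℕ := c / (l + 1) + 1

/-- The weights `γ_i`. -/
def gm (c i : ℕ) : ℕ := if i = 0 then 0 else c

/-- Twice the virtual dimension plus two: `(d+1)(d+2) - ∑ a_i (a_i + 1)`. -/
def ch2 {ι : Type*} (d : ℤ) (S : Finset ι) (a : ι → ℕ) : ℤ :=
  (d + 1) * (d + 2) - ∑ i ∈ S, (a i : ℤ) * ((a i : ℤ) + 1)

/-- The point `(t, t^3)` of the cuspidal cubic `y = x^3`. -/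
def ga (t : ℂ) : Fin 2 → ℂ := ![t, t ^ 3]

/-- Admissible systems for points of the cuspidal cubic. -/
structure Adm (r : ℕ) (n : ℤ) (a : Fin r → ℕ) : Prop where
  ge : -2 ≤ n
  one : ∀ i, 1 ≤ a i → (a i : ℤ) ≤ n + 1
  two : ∀ i j, i ≠ j → 1 ≤ a i → 1 ≤ a j → (a i : ℤ) + a j ≤ n + 1
  three : ∀ i j l, i ≠ j → j ≠ l → i ≠ l → 1 ≤ a i → 1 ≤ a j → 1 ≤ a l →
    (a i : ℤ) + a j + a l ≤ n

/-- The property `Q` holds for general points `P : Fin r → ℂ^2`. -/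
def Gen (r : ℕ) (Q : (Fin r → Fin 2 → ℂ) → Prop) : Prop :=
  ∃ G : MvPolynomial (Fin r × Fin 2) ℂ, G ≠ 0 ∧
    ∀ P : Fin r → Fin 2 → ℂ, eval (fun x : Fin r × Fin 2 => P x.1 x.2) G ≠ 0 → Q P

/-- The system of degree `d` with multiplicities `a i` (`i : ι`) is non-special: the statement of
the problem for arbitrary index types. -/
def ZZ (ι : Type) [Fintype ι] (a : ι → ℕ) (d : ℕ) : Prop :=
  ∃ G : MvPolynomial (ι × Fin 3) ℂ, G ≠ 0 ∧
    ∀ P : ι → Fin 3 → ℂ, (∀ i, P i ≠ 0) →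
      eval (fun ij : ι × Fin 3 => P ij.1 ij.2) G ≠ 0 →
      (finrank ℂ (↥(homogeneousSubmodule (Fin 3) ℂ d ⊓
        ⨅ i : ι, Submodule.restrictScalars ℂ
          ((Ideal.span {g : MvPolynomial (Fin 3) ℂ | g.IsHomogeneous 1 ∧ eval (P i) g = 0}) ^ (a i)
            : Ideal (MvPolynomial (Fin 3) ℂ)))) : ℤ)
        = max ((Nat.choose (d + 2) 2 : ℤ) - ∑ i : ι, (Nat.choose (a i + 1) 2 : ℤ)) 0

/-- The class `C0 = (k; w)`: any three (or fewer) multiplicities have sum `≤ k`, `∑ w < 3k` and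
`u = k^2 - ∑ w^2 ≥ 1`. -/
structure Sq (r k u : ℕ) (w : Fin r → ℕ) : Prop where
  tri : ∀ I : Finset (Fin r), I.card ≤ 3 → ∑ i ∈ I, w i ≤ k
  sum : ∑ i, w i < 3 * k
  sqr : u + ∑ i, w i ^ 2 = k ^ 2
  pos : 1 ≤ u

/-- `F` is a good curve of the class `C0 = (k; w)` at the points `P`: irreducible, of degree `≤ k`
with a nonzero coefficient of `y^k` (so of degree `k`), with multiplicity exactly `w i` at `P i`. -/
structure Good (r k : ℕ) (w : Fin r → ℕ) (P : Fin r → Fin 2 → ℂ) (F : R2) : Prop where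
  irr : Irreducible F
  mem : F ∈ SP (k : ℤ) Finset.univ P w
  top : coeff (Finsupp.single 1 k) F ≠ 0
  exact : ∀ i, F ∉ mI (P i) ^ (w i + 1)

/-- `b_j` (an integer): `a0 - ∑_l min(j, m - n_l)`. -/
def bj (u m : ℕ) (n : Fin u → ℕ) (a0 : ℤ) (j : ℕ) : ℤ := a0 - ∑ l, ((min j (m - n l) : ℕ) : ℤ)

end Pool.Agent.Helper66.SB
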