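import Pool.Agent.Helper66.SB.GoalsB

set_option autoImplicit false

namespace Pool.Agent.Helper66.SB

theorem num_aux (c M : ℕ) :
    2 * ∑ j ∈ Finset.Icc 1 M, ((j : ℤ) - ((min j c : ℕ) : ℤ)) =
      ((M - c : ℕ) : ℤ) * (((M - c : ℕ) : ℤ) + 1) := by
  induction M with
  | zero => simp
  | succ M ih =>
    rw [Finset.sum_Icc_succ_top (by omega), mul_add, ih]
    rcases Nat.lt_or_ge M c with h | h
    · have e1 : min (M + 1) c = M + 1 := by omega
      have e2 : M - c = 0 := by omega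
      have e3 : M + 1 - c = 0 := by omega
      rw [e1, e2, e3]
      push_cast
      ring
    · have e1 : min (M + 1) c = c := by omega
      have e2 : ((M - c : ℕ) : ℤ) = (M : ℤ) - c := by omega
      have e3 : ((M + 1 - c : ℕ) : ℤ) = (M : ℤ) + 1 - c := by omega
      rw [e1, e2, e3]
      push_cast
      ring

theorem num_key {r : ℕ} (w μ : Fin r → ℕ) (i : ℕ) :
    ∑ j, (((μ j + i * w j : ℕ) : ℤ)) * (((μ j + i * w j : ℕ) : ℤ) + 1) =
      ∑ j, (μ j : ℤ) * ((μ j : ℤ) + 1) + 2 * i * ∑ j, (μ j : ℤ) * w j + i * ∑ j, (w j : ℤ) +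
        (i : ℤ) ^ 2 * ∑ j, (w j : ℤ) ^ 2 := by
  rw [Finset.mul_sum, Finset.mul_sum, Finset.mul_sum, ← Finset.sum_add_distrib,
    ← Finset.sum_add_distrib, ← Finset.sum_add_distrib]
  refine Finset.sum_congr rfl fun j _ => ?_
  push_cast
  ring

theorem gNUM : G_NUM := by
  intro r k u w hS δ μ
  have hu : (u : ℤ) + ∑ i, (w i : ℤ) ^ 2 = (k : ℤ) ^ 2 := by exact_mod_cast hS.sqr
  have hev : Even ((u : ℤ) - 3 * k + ∑ i, (w i : ℤ)) := by
    have e1 : (u : ℤ) - 3 * k + ∑ i, (w i : ℤ) =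
        ((k : ℤ) * (k - 3)) - ∑ i, ((w i : ℤ) * (w i - 1)) := by
      have e2 : ∑ i, ((w i : ℤ) * (w i - 1)) = ∑ i, (w i : ℤ) ^ 2 - ∑ i, (w i : ℤ) := by
        rw [← Finset.sum_sub_distrib]
        exact Finset.sum_congr rfl fun i _ => by ring
      rw [e2]
      linear_combination hu
    rw [e1]
    refine Even.sub ?_ ?_
    · rw [Int.even_mul]
      rcases Int.even_or_odd (k : ℤ) with h | h
      · exact Or.inl h
      · right
        obtain ⟨c, hc⟩ := h
        exact ⟨c - 1, by rw [hc]; ring⟩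
    · refine Finset.even_sum _ fun i _ => ?_
      rw [Int.even_mul]
      rcases Int.even_or_odd (w i : ℤ) with h | h
      · exact Or.inl h
      · right
        obtain ⟨c, hc⟩ := h
        exact ⟨c, by rw [hc]; ring⟩
  obtain ⟨c, hc⟩ := hev
  have hch : ∀ i : ℕ, ch2 ((δ : ℤ) + (i : ℕ) * k) Finset.univ (fun j => μ j + i * w j) =
      ch2 (δ : ℤ) Finset.univ μ + i * (2 * k * δ + 3 * k - 2 * ∑ j, (μ j : ℤ) * w j -
        ∑ j, (w j : ℤ)) + (i : ℤ) ^ 2 * u := by
    intro i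
    simp only [ch2]
    rw [num_key]
    linear_combination (-(i : ℤ) ^ 2) * hu
  refine ⟨c - ((k : ℤ) * δ - ∑ i, (μ i : ℤ) * w i), by linear_combination -hc, ?_, ?_⟩
  · intro i
    have h1 := hch (i + 1)
    have h2 := hch i
    have e1 : (fun j => μ j + (i + 1) * w j) = fun j => μ j + (i + 1 : ℕ) * w j := rfl
    rw [h1, h2]
    push_cast
    linear_combination -hc
  · intro m n hn
    rw [hch m]
    have h1 : ∀ l, (n l : ℤ) * ((n l : ℤ) + 1) =
        2 * ∑ j ∈ Finset.Icc 1 m, ((j : ℤ) - ((min j (m - n l) : ℕ) : ℤ)) := by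
      intro l
      rw [num_aux (m - n l) m]
      have := hn l
      have e1 : m - (m - n l) = n l := by omega
      rw [e1]
    have h2 : ∑ l, (n l : ℤ) * ((n l : ℤ) + 1) =
        (u : ℤ) * (2 * ∑ j ∈ Finset.Icc 1 m, (j : ℤ)) -
          2 * ∑ l, ∑ j ∈ Finset.Icc 1 m, ((min j (m - n l) : ℕ) : ℤ) := by
      rw [Finset.sum_congr rfl fun l _ => h1 l, ← Finset.mul_sum]
      simp only [Finset.sum_sub_distrib]
      rw [Finset.sum_const, Finset.card_univ, Fintype.card_fin, nsmul_eq_mul]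
      ring
    have h3 : ∀ a0 : ℤ, ∑ j ∈ Finset.Icc 1 m, bj u m n a0 j =
        m * a0 - ∑ l, ∑ j ∈ Finset.Icc 1 m, ((min j (m - n l) : ℕ) : ℤ) := by
      intro a0
      simp only [bj]
      rw [Finset.sum_sub_distrib, Finset.sum_const, Nat.card_Icc, Nat.add_sub_cancel,
        nsmul_eq_mul, Finset.sum_comm]
    have h4 : 2 * ∑ j ∈ Finset.Icc 1 m, (j : ℤ) = m * (m + 1) := by
      have := num_aux 0 m
      simpa using this
    rw [h2, h3, h4]
    linear_combination (-(m : ℤ)) * hc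

end Pool.Agent.Helper66.SB
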