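import Pool.Agent.Helper66.SB.Goals

set_option autoImplicit false

namespace Pool.Agent.Helper66.SB

theorem th_pos (c l : ℕ) : 0 < th c l := Nat.succ_pos _

theorem lt_th (c l : ℕ) : c < th c l * (l + 1) := by
  have h1 := Nat.lt_div_mul_add (a := c) (b := l + 1) (Nat.succ_pos l)
  rw [th, add_mul, one_mul]
  exact h1

theorem th_lt {m c l : ℕ} (hc : m * (m + 1) < c) (hl : l ≤ m) : th c l * l < c := by
  have h1 : c / (l + 1) * (l + 1) ≤ c := Nat.div_mul_le_self c (l + 1)
  have h2 : l * (l + 1) ≤ m * (m + 1) := Nat.mul_le_mul hl (by omega)
  have h3 : l < c / (l + 1) ∨ c / (l + 1) ≤ l := Nat.lt_or_ge _ _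
  rcases h3 with h3 | h3
  · rw [th]
    nlinarith
  · have h4 := Nat.lt_div_mul_add (a := c) (b := l + 1) (Nat.succ_pos l)
    -- `c < (c/(l+1)) (l+1) + (l+1)`
    have h5 : (c / (l + 1)) * (l + 1) ≤ l * (l + 1) := Nat.mul_le_mul_right _ h3
    have h6 : c / (l + 1) = l := by
      by_contra hne
      have h7 : c / (l + 1) + 1 ≤ l := by omega
      have h8 : (c / (l + 1) + 1) * (l + 1) ≤ l * (l + 1) := Nat.mul_le_mul_right _ h7
      nlinarith
    rw [th, h6]
    nlinarith

theorem gPSI : G_PSI := by
  intro m N l c j hc hl hN hj
  have ht := th_pos c l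
  have h1 := lt_th c l
  have h2 := th_lt hc hl
  refine ⟨?_, ?_, ?_⟩
  · -- the number of levels
    rcases Nat.lt_or_ge (m - l) (N - j) with h3 | h3
    · -- `S = {0} ∪ {m - (N - j) + 2, ..., m}`
      have e1 : ((Finset.range (m + 1)).filter fun i => j < ee m N l i) =
          insert 0 (Finset.Icc (m - (N - j) + 2) m) := by
        ext i
        simp only [Finset.mem_filter, Finset.mem_range, Finset.mem_insert, Finset.mem_Icc, ee]
        split_ifs <;> omega
      rw [e1, Finset.card_insert_of_notMem, Nat.card_Icc]
      · omega
      · rw [Finset.mem_Icc]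
        omega
    · have e1 : ((Finset.range (m + 1)).filter fun i => j < ee m N l i) =
          Finset.Icc (m - (N - j) + 1) m := by
        ext i
        simp only [Finset.mem_filter, Finset.mem_range, Finset.mem_Icc, ee]
        split_ifs <;> omega
      rw [e1, Nat.card_Icc]
      omega
  · intro i i' hi hi' h3 h4
    have hlt : ∀ a b : ℕ, a < b → b ≤ m → th c l * (m - b) < th c l * (m - a) := by
      intro a b hab hb
      exact Nat.mul_lt_mul_of_pos_left (by omega) ht
    rcases Nat.eq_zero_or_pos i with hi0 | hi0
    · -- `i = 0`, so `i'` is positive and `≤ l`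
      subst hi0
      rcases Nat.eq_zero_or_pos i' with h0 | h0
      · subst h0
        omega
      · have h5 : i' ≤ l := by
          by_contra h6
          simp only [ee] at h3 h4
          split_ifs at h3 h4 <;> omega
        have h6 : th c l * i' ≤ th c l * l := Nat.mul_le_mul_left _ h5
        have h7 : th c l * (m - 0) = th c l * (m - i') + th c l * i' := by
          rw [← Nat.mul_add]
          congr 1
          omega
        simp only [gm, if_true]
        rw [if_neg (by omega), h7]
        omega
    · rcases Nat.eq_zero_or_pos i' with h0 | h0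
      · subst h0
        -- `ψ_i < ψ_0`: `i > l`
        have h5 : l < i := by
          by_contra h6
          simp only [ee] at h3 h4
          split_ifs at h3 h4 <;> omega
        have h6 : th c l * (l + 1) ≤ th c l * i := Nat.mul_le_mul_left _ h5
        have h7 : th c l * (m - 0) = th c l * (m - i) + th c l * i := by
          rw [← Nat.mul_add]
          congr 1
          omega
        simp only [gm, if_true]
        rw [if_neg (by omega), h7]
        omega
      · have h5 : i' < i := by
          by_contra h6
          simp only [ee] at h3 h4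
          rw [if_neg (by omega)] at h3 h4
          split_ifs at h3 h4 <;> omega
        have := hlt i' i h5 hi
        simp only [gm]
        rw [if_neg (by omega), if_neg (by omega)]
        omega
  · intro i hi
    have h3 : th c l ≤ c + 1 := by
      rw [th]
      have := Nat.div_le_self c (l + 1)
      omega
    have h4 : th c l * (m - i) ≤ (c + 1) * m := Nat.mul_le_mul h3 (Nat.sub_le _ _)
    have h5 : gm c i ≤ c := by
      rw [gm]
      split_ifs <;> omega
    nlinarith

end Pool.Agent.Helper66.SB
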