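import Pool.Agent.Helper66.SB.Defs

/-!
# Project SB (MP_d3128a_ag): goals, part A (curve `F = 0`, slices lemma, linear algebra).

Every goal may be used as a hypothesis in the other packets. Deliver `Pool/Agent/<Seat>/SB/XX.lean`
with `theorem gXX : G_XX` or `theorem gXX (h1 : G_YY) ... : G_XX`, namespace
`Pool.Agent.<Seat>.SB`. Notation: `F_x = pderiv 0 F`, `F_y = pderiv 1 F`, `σ`, `τ`, `T` as in
`Defs.lean`.
-/

set_option autoImplicit false

open Module MvPolynomial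

noncomputable section

namespace Pool.Agent.Helper66.SB

open Helper18.Shgh

/-- BR (branch of a curve, truncated). If `F(R) = 0`, `F_y(R) ≠ 0` then for every `M` there is a
polynomial `φ` with `φ(0) = 0` and `σ^M ∣ F(R_0 + σ, R_1 + φ(σ))`.

Proof. Induction on `M`. `M = 0, 1`: `φ = 0` (the constant coefficient of `br R 0 F` is `F(R)`).
Step `M → M + 1`, `M ≥ 1`: `br R φ F = σ^M q`. Put `φ' = φ + c σ^M`. Then
`br R φ' F - br R φ F - c σ^M br R φ (F_y)` is divisible by `σ^(2M)` (Taylor in the second variable;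
or: for every polynomial `G`, `σ^(M+1)` divides
`br R (φ + c σ^M) G - br R φ G - c σ^M br R φ (pderiv 1 G)`, by `MvPolynomial.induction_on`, using
`σ^(2M) = σ^(M+1) * ...`). The coefficient of `σ^M` in `br R φ' F` is `q(0) + c F_y(R)`: choose
`c = -q(0) / F_y(R)`. -/
def G_BR : Prop := ∀ (F : R2) (R : Fin 2 → ℂ), eval R F = 0 → eval R (pderiv 1 F) ≠ 0 →
  ∀ M : ℕ, ∃ φ : Polynomial ℂ, φ.coeff 0 = 0 ∧ Polynomial.X ^ M ∣ br R φ F

/-- BD (the derivation `∂` along a truncated branch). If `σ^M ∣ br F` then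
`br (∂ g) ≡ br(F_y) · (br g)'` modulo `σ^(M-1)`.

Proof. Chain rule: `(br g)' = br (g_x) + φ' br (g_y)` for every `g` (`MvPolynomial.induction_on`).
For `g = F`: `br (F_x) + φ' br (F_y) = (br F)'` is divisible by `σ^(M-1)`. So
`br (∂ g) = br(F_y) br(g_x) - br(F_x) br(g_y) ≡ br(F_y) br(g_x) + φ' br(F_y) br(g_y)`. -/
def G_BD : Prop := ∀ (F g : R2) (R : Fin 2 → ℂ) (φ : Polynomial ℂ) (M : ℕ),
  Polynomial.X ^ M ∣ br R φ F →
  Polynomial.X ^ (M - 1) ∣
    br R φ (dl F g) - br R φ (pderiv 1 F) * Polynomial.derivative (br R φ g)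

/-- DO (order along the branch and the derivation). If `σ^M ∣ br F`, `e ≤ M`, `σ^e ∣ br g` then `g`
has order `≥ e` along the curve in the sense of `OC`.

Proof (from `G_BD`). By induction on `j ≤ e`: `σ^(e-j) ∣ br (∂^j g)`: if `σ^(e-j) ∣ br h`, `j < e`,
then `σ^(e-j-1)` divides `(br h)'`, and `e - j - 1 ≤ M - 1`, so it divides `br (∂ h)`. For `j < e`
the constant coefficient of `br (∂^j g)` is `(∂^j g)(R)` (as `φ(0) = 0`), and it is `0`. -/
def G_DO : Prop := ∀ (F g : R2) (R : Fin 2 → ℂ) (φ : Polynomial ℂ) (M e : ℕ), φ.coeff 0 = 0 →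
  Polynomial.X ^ M ∣ br R φ F → e ≤ M → Polynomial.X ^ e ∣ br R φ g → g ∈ OC F R e

/-- ELIM (elimination). `F` irreducible, `F ∤ g`: there are `a`, `b` and a nonzero polynomial `q(x)`
of one variable with `a F + b g = q(x)`.

Proof. If `F ∈ ℂ[x]` take `a = 1`, `b = 0`. Otherwise view `F`, `g` in `ℂ[x][y]`
(`MvPolynomial.finSuccEquiv` after exchanging the variables, or `finSuccEquiv` and the symmetry).
`F` is irreducible of positive degree in `y`, hence primitive, hence irreducible in `ℂ(x)[y]` (Gauss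
lemma: `Polynomial.IsPrimitive.irreducible_iff_irreducible_map_fraction_map`), and does not divide
`g` in `ℂ(x)[y]` (`Polynomial.IsPrimitive.dvd_iff_fraction_map_dvd_fraction_map` or
`IsPrimitive.dvd_of_fraction_map_dvd_fraction_map`, after making `g` primitive); so `F`, `g` are
coprime in `ℂ(x)[y]`: `A F + B g = 1`; clear denominators. -/
def G_ELIM : Prop := ∀ (F g : R2), Irreducible F → ¬ F ∣ g →
  ∃ (a b : R2) (q : Polynomial ℂ), q ≠ 0 ∧ a * F + b * g = Polynomial.aeval (X 0 : R2) q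

/-- PT (points of the curve). `F` irreducible, `F ∤ W`: there is a point `R` of the curve with
`W(R) ≠ 0`.

Proof. Nullstellensatz (`MvPolynomial.vanishingIdeal_zeroLocus_eq_radical`): otherwise `W` lies in
the radical of the ideal `(F)`, which is prime (`R2` is factorial), so `F ∣ W`. -/
def G_PT : Prop := ∀ (F W : R2), Irreducible F → ¬ F ∣ W →
  ∃ R : Fin 2 → ℂ, eval R F = 0 ∧ eval R W ≠ 0

/-- CONST (constants of `∂`). `F` irreducible, `F ∤ F_y`, `F ∤ g` and `F ∣ (∂ f) g - f (∂ g)`: then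
`F ∣ f - c g` for a constant `c`.

Proof (from `G_BR`, `G_BD`, `G_ELIM`, `G_PT`). `F ∤ F_y g` (`F` is prime), so by `G_PT` there is `R`
with `F(R) = 0`, `F_y(R) ≠ 0`, `g(R) ≠ 0`. Put `c = f(R)/g(R)`, `f1 = f - c g`; then
`(∂ f1) g - f1 (∂ g) = (∂ f) g - f (∂ g)` is divisible by `F` and `f1(R) = 0`. Suppose `F ∤ f1`.
`G_ELIM`: `a F + b f1 = q(x)`, `q ≠ 0`. Let `t` be the order of `q(R_0 + σ)` at `σ = 0`, and
`M = t + 3`; take `φ` from `G_BR`. Then `br (a F) ≡ 0` mod `σ^M`, so `σ^(t+1) ∤ br f1`; let `e` be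
the order of `br f1` at `0`, `1 ≤ e ≤ t` (`e ≥ 1` since `f1(R) = 0`). By `G_BD`, modulo
`σ^(M-1) = σ^(t+2)`, `br (∂ f1) ≡ br(F_y) (br f1)'` has order exactly `e - 1` (characteristic zero,
`F_y(R) ≠ 0`), `br g` has order `0`, so `br ((∂ f1) g)` has order exactly `e - 1`, while
`br (f1 (∂ g))` has order `≥ e`; but their difference is `br (F ...)`, divisible by `σ^M`:
contradiction. -/
def G_CONST : Prop := ∀ (F f g : R2), Irreducible F → ¬ F ∣ pderiv 1 F → ¬ F ∣ g →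
  F ∣ dl F f * g - f * dl F g → ∃ c : ℂ, F ∣ f - C c * g

/-- WR (Wronskian). `F` irreducible, `F ∤ F_y`, `U` a finite-dimensional space of polynomials none of
whose nonzero elements is divisible by `F`: there is `W`, `F ∤ W`, such that at the points `R` of the
curve with `W(R) ≠ 0` no nonzero element of `U` has order `≥ dim U`.

Proof (from `G_CONST`). Compare `Pool.Agent.Helper13.EW.wr_aux` (`Helper13/EW/Wr.lean`), the same
argument for polynomials of one variable. Induction on `N = dim U`. `N = 0`: `W = 1`. `N ≥ 1`: pick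
`0 ≠ g ∈ U` and a complement `U1` of `⟨g⟩` in `U`; let `U'` be the image of `U1` under the linear map
`δ v = (∂ v) g - v (∂ g)`. If `v ∈ U1` and `F ∣ δ v` then by `G_CONST` `F ∣ v - c g`, so
`v - c g = 0`, `v = 0`. So `δ` is injective on `U1`, `dim U' = N - 1`, and `F` divides no nonzero
element of `U'`. Let `W'` be the polynomial for `U'`, `W = g W'`. Let `F(R) = 0`, `W(R) ≠ 0`,
`v ∈ U` of order `≥ N` at `R`. `v = v1 + c g`, `δ v = δ v1` (since `δ g = 0`). By the Leibniz rule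
`∂^j (δ v)` is a combination of products with a factor `∂^i v`, `i ≤ j + 1`, so `δ v` has order
`≥ N - 1` at `R`; by induction `δ v1 = 0`, so `v1 = 0`, `v = c g`, and `v(R) = 0`, `g(R) ≠ 0` give
`c = 0`. -/
def G_WR : Prop := ∀ (F : R2), Irreducible F → ¬ F ∣ pderiv 1 F → ∀ U : Submodule ℂ R2,
  FiniteDimensional ℂ U → (∀ v ∈ U, F ∣ v → v = 0) →
  ∃ W : R2, ¬ F ∣ W ∧ ∀ R : Fin 2 → ℂ, eval R F = 0 → eval R W ≠ 0 →
    ∀ v ∈ U, v ∈ OC F R (finrank ℂ U) → v = 0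

/-- GEN (several spaces, several points). `F` irreducible, `F ∤ F_y`, `U_1..U_A` finite-dimensional
spaces as in `G_WR`, orders `e i l` given: there are points `R_1..R_u` of the curve with
`F_y(R_l) ≠ 0` such that for every `i` the subspace of `U_i` of elements of order `≥ e i l` at `R_l`
for all `l` has dimension at most `dim U_i - ∑_l e i l` (subtraction in `ℕ`).

Proof (from `G_WR`, `G_PT`). Induction on `u` (for all families `U`). `u = 0`: clear. Step: let `W_i`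
be the polynomials of `G_WR` for the `U_i`; the prime `F` does not divide `F_y ∏ W_i`; `G_PT` gives
`R_1` with all of them nonzero. `U_i' = U_i ⊓ OC F R_1 (e i 1)` has dimension at most
`dim U_i - e i 1`: with `N = dim U_i`, if `e i 1 ≥ N` it is `0` by `G_WR`; if `e < N` the map
`U_i ⊓ OC F R_1 e → ℂ^(N-e)`, `v ↦ (∂^j v (R_1))_{e ≤ j < N}` is injective by `G_WR`. Apply the
induction hypothesis to the `U_i'` and `Fin.cons`. -/
def G_GEN : Prop := ∀ (F : R2), Irreducible F → ¬ F ∣ pderiv 1 F →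
  ∀ (A u : ℕ) (U : Fin A → Submodule ℂ R2), (∀ i, FiniteDimensional ℂ (U i)) →
  (∀ i, ∀ v ∈ U i, F ∣ v → v = 0) → ∀ e : Fin A → Fin u → ℕ,
  ∃ R : Fin u → Fin 2 → ℂ, (∀ l, eval (R l) F = 0 ∧ eval (R l) (pderiv 1 F) ≠ 0) ∧
    ∀ i, finrank ℂ ↥(U i ⊓ ⨅ l, OC F (R l) (e i l)) ≤ finrank ℂ (U i) - ∑ l, e i l

/-- XI (monomials modulo a power of `T - 1`). Let `S` be a finite set of exponents, `e ∈ S`. There is
a linear functional on `ℂ[T]` with value `1` at `T^e`, `0` at the other `T^e'`, `e' ∈ S`, which kills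
all multiples of `(T-1)^|S|`.

Proof. (1) A nonzero polynomial `p` with at most `n` nonzero coefficients (`p.support.card ≤ n`,
`n ≥ 1`) is not divisible by `(T-1)^n`: induction on `n`; divide by a power of `T` (coprime to
`T - 1`) to get `p(0) ≠ 0`; if `n = 1`, `p` is a nonzero constant; otherwise, if `(T-1)^n ∣ p` then
`(T-1)^(n-1) ∣ p'`, and `p'` has one term less, so `p' = 0` by induction (characteristic zero) and
`p` is a constant divisible by `(T-1)^n`: contradiction. (2) So the classes of the `T^e'`, `e' ∈ S`,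
are linearly independent in `ℂ[T] / ((T-1)^|S|)` (as a `ℂ`-vector space); take a functional on the
quotient which is dual to one of them (extend a linearly independent family to a basis, or
`LinearMap.exists_extend`/`exists_leftInverse_of_injective`) and compose with the projection. -/
def G_XI : Prop := ∀ (S : Finset ℕ) (e : ℕ), e ∈ S →
  ∃ ξ : Polynomial ℂ →ₗ[ℂ] ℂ,
    (∀ e' ∈ S, ξ (Polynomial.X ^ e') = if e' = e then 1 else 0) ∧
    ∀ p : Polynomial ℂ, ξ ((Polynomial.X - 1) ^ S.card * p) = 0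

/-- XV (the functional `XF ξ j` kills the ideal). If `j < N` and `ξ` kills the multiples of
`(T-1)^(N-j)` then `XF ξ j` kills the ideal `(σ, T-1)^N` (`= mI ![0,1] ^ N` with `σ = X 0`,
`T = X 1`); moreover `XF ξ j` kills the multiples of `σ^M` for `M > j`, and
`XF ξ j (σ^a T^b) = [a = j] ξ(T^b)`.

Proof. The ideal is spanned over `ℂ` by the products `σ^b (T-1)^(N-b) H`, `b ≤ N`
(`Ideal.span_pow_eq...` or: `(I ⊔ J)^N = ⨆ I^b J^(N-b)`, `Ideal.sup_pow...`; or use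
`mem_mI_pow` / the translation `tau`), and `H` is a combination of monomials `σ^a p(T)`. For
`b + a = j` we get `ξ((T-1)^(N-b) p) = 0` since `N - b ≥ N - j`; for `b + a ≠ j` the value is `0` by
definition. -/
def G_XV : Prop := ∀ (N j : ℕ) (ξ : Polynomial ℂ →ₗ[ℂ] ℂ),
  (∀ a b : ℕ, XF ξ j (X 0 ^ a * X 1 ^ b) = if a = j then ξ (Polynomial.X ^ b) else 0) ∧
  (∀ (M : ℕ) (G : R2), j < M → XF ξ j (X 0 ^ M * G) = 0) ∧
  (j < N → (∀ p : Polynomial ℂ, ξ ((Polynomial.X - 1) ^ (N - j) * p) = 0) →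
    ∀ G ∈ mI (![0, 1] : Fin 2 → ℂ) ^ N, XF ξ j G = 0)

/-- CH (the chart). Let `φ(0) = 0`, `σ^M ∣ br R φ F`. (1) `F` becomes `τ U + σ^M Q` in the chart,
with `U(0,0) = F_y(R)` if `M ≥ 1`. (2) For every `G` and `j` the coefficient of `σ^j τ^0` of
`ch R φ G` is the coefficient of `σ^j` of `br R φ G`. (3) If `G` has multiplicity `≥ N` at the point
`(R_0, R_1 + c)` then `sc c (ch R φ G)` lies in `mI ![0,1] ^ N`.

Proof. (2): `br R φ` is `ch R φ` followed by `X 0 ↦ σ`, `X 1 ↦ 0` (`MvPolynomial.algHom_ext`), and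
this substitution picks the coefficients of the monomials without `X 1`. (1): `ch R φ G` minus
`aeval (X 0) (br R φ G)` is divisible by `X 1` (same argument: it vanishes at `X 1 = 0`); for `G = F`,
`br R φ F = σ^M q`. `U(0,0)` is the coefficient of `τ = σ^0 τ^1` of `ch R φ F` (as `M ≥ 1`), which is
the coefficient of `τ` in `F(R_0, R_1 + τ)`: it is `F_y(R)`. (3): `sc c (ch R φ (X 0 - C (R 0))) =
X 0` and `sc c (ch R φ (X 1 - C (R 1 + c))) = φ(X 0) + c (X 1 - 1)`, both in `mI ![0,1]`; the map is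
a ring homomorphism, so it maps `mI ![R 0, R 1 + c] ^ N` into `mI ![0,1] ^ N`. -/
def G_CH : Prop := ∀ (R : Fin 2 → ℂ) (φ : Polynomial ℂ), φ.coeff 0 = 0 →
  (∀ (F : R2) (M : ℕ), 1 ≤ M → Polynomial.X ^ M ∣ br R φ F →
    ∃ U Q : R2, ch R φ F = X 1 * U + X 0 ^ M * Q ∧ coeff 0 U = eval R (pderiv 1 F)) ∧
  (∀ (G : R2) (j : ℕ), coeff (Finsupp.single 0 j) (ch R φ G) = (br R φ G).coeff j) ∧
  (∀ (G : R2) (c : ℂ) (N : ℕ), G ∈ mI ![R 0, R 1 + c] ^ N →
    sc c (ch R φ G) ∈ mI (![0, 1] : Fin 2 → ℂ) ^ N)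

/-- PSI (the order of the weights; arithmetic of natural numbers). Let `m(m+1) < c`, `l ≤ m`,
`ψ_i = θ (m-i) + γ_i` with `θ = th c l`, `γ = gm c`. For every `0 < M' ≤ m` there is a set `S` of
exactly `M'` levels in `{0..m}` such that `ψ_i < ψ_i'` for `i ∈ S`, `i' ∉ S`, and, when
`M' = N - j`, `j < N ≤ m`: `i ∈ S ↔ j < ee m N l i`.

Proof. `θ l < c < θ (l+1)`: `θ (l+1) > c` by the definition of the floor; `θ l ≤ (c/(l+1) + 1) l`,
and `(c/(l+1)) l ≤ c l/(l+1)`, so `θ l ≤ c - c/(l+1) + l < c` because `l (l+1) ≤ m(m+1) < c`. Hence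
the order of the `ψ`: `ψ_m < ψ_(m-1) < ... < ψ_(l+1) < ψ_0 < ψ_l < ... < ψ_1`: for `1 ≤ i < i'`,
`ψ_i - ψ_i' = θ (i'-i) > 0`; for `i ≥ 1`, `ψ_0 < ψ_i ↔ θ i < c ↔ i ≤ l`. The position of level `i`
in this order (number of levels with smaller `ψ`) is `m - i` for `i > l`, `m - l` for `i = 0`,
`m - i + 1` for `1 ≤ i ≤ l`. `S` = levels with position `< M'`, e.g. defined as the filter of
`{0..m}` by `j < ee m N l i` with `j = N - M'` (the condition `position < N - j` is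
`j < N - position`, and `N - position` is `ee m N l i` in all three cases, natural subtraction). The
number of elements: positions are a bijection `{0..m} → {0..m}`; or count directly: if
`M' ≤ m - l` then `S = {m, ..., m - M' + 1}`, otherwise `S = {0} ∪ {m, ..., m - M' + 2}`. -/
def G_PSI : Prop := ∀ (m N l c j : ℕ), m * (m + 1) < c → l ≤ m → N ≤ m → j < N →
  ((Finset.range (m + 1)).filter fun i => j < ee m N l i).card = N - j ∧
  (∀ i i' : ℕ, i ≤ m → i' ≤ m → j < ee m N l i → ee m N l i' ≤ j →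
    th c l * (m - i) + gm c i < th c l * (m - i') + gm c i') ∧
  (∀ i, i ≤ m → th c l * (m - i) + gm c i ≤ (c + 1) * (m + 1))

/-- LIM (the limit functionals at one point). `F(R) = 0`, `F_y(R) ≠ 0`, `N ≤ m`, `l ≤ m`,
`m(m+1) < c`, `(c+1)(m+1) < β`, `b = β + θ`, `θ = th c l`. There is a finite family of linear maps
`Λ_a` from the tuples `(g_0..g_m)` of polynomials to `ℂ[s]` such that (1) if `s ≠ 0` and
`∑_i s^(β i + γ_i) F^(m-i) g_i` has multiplicity `≥ N` at `(R_0, R_1 + s^b)` then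
`Λ_a(g)(s) = 0` for all `a`; (2) if `Λ_a(g)(0) = 0` for all `a` then every `g_i` has order
`≥ ee m N l i` at `R` along the curve.

Proof (from `G_BR`, `G_DO`, `G_XI`, `G_XV`, `G_CH`, `G_PSI`). `M = m + 1`, `φ` from `G_BR`,
`ch R φ F = τ U + σ^M Q` from `G_CH`. For `i ≤ m` let `G_i = U^(m-i) ch R φ (g_i)`, linear in `g_i`;
write `G_i = ∑ c_i(a,b') σ^a τ^b'`. Let `ψ_i = θ(m-i) + γ_i`. Let `s ≠ 0`, `c' = s^b`,
`f = ∑_i s^(β i + γ_i) F^(m-i) g_i`. Modulo `σ^M`,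
`sc c' (ch R φ f) ≡ ∑_i s^(β i + γ_i) (c' T)^(m-i) G_i(σ, c' T)
 = s^(β m) ∑_i s^(ψ_i) ∑_{a,b'} c_i(a,b') s^(b b') σ^a T^(m-i+b')`
since `β i + γ_i + (β+θ)(m-i) = β m + ψ_i`. Indices of the family: pairs `(j,i)` with `j < N`,
`j < ee m N l i` (`i ∈ S_j`, `S_j` the set of `G_PSI`, `|S_j| = N - j`). For such a pair let
`ξ = ξ_(j,i)` be the functional of `G_XI` for the set of exponents `{m - i' : i' ∈ S_j}` and the
exponent `m - i`. Define
`Λ_(j,i)(g) = ∑_{i' ≤ m} ∑_{b'} ξ(T^(m-i'+b')) c_i'(j,b') s^((ψ_i' + b b') - ψ_i)`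
(natural subtraction; finite sum over the support of `G_i'`, linear in `g`; e.g. compose
`g_i' ↦ G_i'` with the linear map `R2 → ℂ[s]` defined on monomials by `basisMonomials.constr`).
If the coefficient `ξ(T^(m-i'+b'))` is nonzero and `b' = 0` then `i' = i` or `i' ∉ S_j`, so
`ψ_i' ≥ ψ_i`; if `b' ≥ 1` then `b > ψ_i`. So for the nonzero terms the subtraction is honest, and the
exponent is `0` only for `b' = 0`, `i' = i`. (1): `s^(ψ_i) Λ_(j,i)(g)(s) s^(β m)` is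
`XF ξ j (sc c' (ch R φ f)) = 0` by `G_CH` (3) and `G_XV` (the terms divisible by `σ^M` are killed as
`j < N ≤ m < M`). (2): `Λ_(j,i)(g)(0) = c_i(j,0)`, the coefficient of `σ^j` of
`G_i(σ,0) = U(σ,0)^(m-i) br R φ (g_i)` (`G_CH` (2)). For fixed `i` all `j < ee m N l i` occur
(`ee m N l i ≤ N`), so `σ^(ee)` divides `U(σ,0)^(m-i) br R φ (g_i)`, and `U(0,0) ≠ 0`, so it divides
`br R φ (g_i)`; now `G_DO` (`ee m N l i ≤ m < M`). -/
def G_LIM : Prop := ∀ (F : R2) (R : Fin 2 → ℂ) (m N l c β : ℕ), eval R F = 0 →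
  eval R (pderiv 1 F) ≠ 0 → N ≤ m → l ≤ m → m * (m + 1) < c → (c + 1) * (m + 1) < β →
  ∃ (K : ℕ) (Λ : Fin K → ((Fin (m + 1) → R2) →ₗ[ℂ] Polynomial ℂ)),
    (∀ (s : ℂ) (g : Fin (m + 1) → R2), s ≠ 0 →
      (∑ i : Fin (m + 1), C (s ^ (β * (i : ℕ) + gm c i)) * F ^ (m - (i : ℕ)) * g i) ∈
        mI ![R 0, R 1 + s ^ (β + th c l)] ^ N →
      ∀ a, (Λ a g).eval s = 0) ∧
    ∀ g : Fin (m + 1) → R2, (∀ a, (Λ a g).eval 0 = 0) →
      ∀ i : Fin (m + 1), g i ∈ OC F R (ee m N l i)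

/-- DEC (decomposition along `F`). Let `F ≠ 0`, `W_0, W_1, ...` finite-dimensional with
`F G ∈ W_(i+1) ↔ G ∈ W_i`. There are `U_i ≤ W_i`, `U_0 = W_0`, `dim U_(i+1) = dim W_(i+1) - dim W_i`,
`F` divides no nonzero element of `U_(i+1)`, and for all nonzero scalars `t_i` every `f ∈ W_m` is
`∑_{i ≤ m} t_i F^(m-i) g_i` with `g_i ∈ U_i`.

Proof. `U_(i+1)` = a complement of `F W_i` in `W_(i+1)` (`F W_i = W_i.map (mulLeft F)`, contained in
`W_(i+1)`, of dimension `dim W_i` as multiplication by `F ≠ 0` is injective). If `v ∈ U_(i+1)`,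
`v = F G`, then `G ∈ W_i`, so `v ∈ F W_i`, `v = 0`. Expansion by induction on `m`:
`f = g_m' + F f'`, `g_m' ∈ U_m`, `f' ∈ W_(m-1)`; for `m = 0`, `f = t_0 (f / t_0)`. -/
def G_DEC : Prop := ∀ (F : R2) (W : ℕ → Submodule ℂ R2), F ≠ 0 →
  (∀ i, FiniteDimensional ℂ (W i)) → (∀ (i : ℕ) (G : R2), F * G ∈ W (i + 1) ↔ G ∈ W i) →
  ∃ U : ℕ → Submodule ℂ R2, (∀ i, U i ≤ W i) ∧ U 0 = W 0 ∧
    (∀ i, finrank ℂ (U (i + 1)) + finrank ℂ (W i) = finrank ℂ (W (i + 1))) ∧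
    (∀ i, ∀ v ∈ U (i + 1), F ∣ v → v = 0) ∧
    ∀ (m : ℕ) (t : ℕ → ℂ), (∀ i, t i ≠ 0) → ∀ f ∈ W m, ∃ g : Fin (m + 1) → R2,
      (∀ i : Fin (m + 1), g i ∈ U i) ∧
      f = ∑ i : Fin (m + 1), C (t i) * F ^ (m - (i : ℕ)) * g i

/-- SLI (the slices lemma). `F` irreducible, `F ∤ F_y`, `W_i` as in `G_DEC`, `N_a ≤ m`, `λ_a ≤ m`
(`a < u`), and either `F` divides no nonzero element of `W_0` or all `λ_a = 0`. There are `u` points
`R_a` such that the space of `f ∈ W_m` with multiplicity `≥ N_a` at `R_a` has dimension at most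
`∑_{i=1}^m (dim W_i - dim W_(i-1) - ∑_a ee m N_a λ_a i) + (dim W_0 - ∑_a ee m N_a λ_a 0)`
(natural subtractions).

Proof (from `G_GEN`, `G_LIM`, `G_DEC`, `Helper18.Shgh.semicont`). `U_i` from `G_DEC`. Apply `G_GEN`
to `U_1..U_m` and also to `U_0 = W_0` in the first case (orders `ee m N_a λ_a i`); in the second case
`ee m N_a 0 0 = 0`, so nothing is needed for `U_0` (apply `G_GEN` with `⊥` in place of `U_0`). This
gives points `R_a` of the curve. `c = m(m+1)+1`, `β = (c+1)(m+1)+1`. `E = ∏_{i ≤ m} U_i` (submodule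
`Submodule.pi` of `Fin (m+1) → R2`, finite-dimensional). The functionals `Λ` of `G_LIM` for all
points `a < u`, restricted to `E`, form a finite family with values in `ℂ[s]`; by `semicont` with
`A = ℂ[s]`, `φ₀` = evaluation at `0`, there is `G ∈ ℂ[s]`, `G(0) ≠ 0`, such that for `G(s) ≠ 0` the
common kernel at `s` has dimension at most that at `0`. Take `s ≠ 0` with `G(s) ≠ 0` (`G ≠ 0` has
finitely many roots; see `exists_ne_zero_eval_ne_zero` in `Helper18/ShghSemi.lean`). The common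
kernel at `0` is contained in the product of the spaces `U_i ⊓ ⨅_a OC F R_a (ee ...)` (`G_LIM` (2)),
of dimension `≤` the asserted sum. The points are `![R_a 0, R_a 1 + s^(β + th c λ_a)]`; the linear
map `E → R2`, `g ↦ ∑ s^(β i + γ_i) F^(m-i) g_i` has image containing `W_m`, and maps (a subspace of)
the kernel at `s` onto the space in question by `G_LIM` (1); so its dimension is at most that of the
kernel at `s`. -/
def G_SLI : Prop := ∀ (F : R2), Irreducible F → ¬ F ∣ pderiv 1 F →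
  ∀ W : ℕ → Submodule ℂ R2, (∀ i, FiniteDimensional ℂ (W i)) →
  (∀ (i : ℕ) (G : R2), F * G ∈ W (i + 1) ↔ G ∈ W i) →
  ∀ (m u : ℕ) (N l : Fin u → ℕ), (∀ a, N a ≤ m) → (∀ a, l a ≤ m) →
  ((∀ v ∈ W 0, F ∣ v → v = 0) ∨ ∀ a, l a = 0) →
  ∃ R : Fin u → Fin 2 → ℂ,
    finrank ℂ ↥(W m ⊓ ⨅ a, Submodule.restrictScalars ℂ (mI (R a) ^ (N a) : Ideal R2)) ≤
      ∑ i ∈ Finset.range m, (finrank ℂ (W (i + 1)) - finrank ℂ (W i) -
        ∑ a, ee m (N a) (l a) (i + 1)) + (finrank ℂ (W 0) - ∑ a, ee m (N a) (l a) 0)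

/-- CP (conjugate partition). `α_1 ≥ α_2 ≥ ... ≥ α_m`, `α_1 ≤ |A|`: there are numbers `λ_a ≤ m`
(`a ∈ A`) with exactly `α_j` of them `≥ j`, for `1 ≤ j ≤ m`.

Proof. Enumerate `A` by `0, ..., |A|-1` (`Finset.equivFin`), and give the element number `h` the
number `#{j ∈ {1..m} : h < α_j}`. As the `α_j` decrease, this number is `≥ j` iff `h < α_j`. -/
def G_CP : Prop := ∀ (u m : ℕ) (A : Finset (Fin u)) (α : ℕ → ℕ),
  (∀ j, 1 ≤ j → j < m → α (j + 1) ≤ α j) → (1 ≤ m → α 1 ≤ A.card) →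
  ∃ l : Fin u → ℕ, (∀ a, l a ≤ m) ∧ (∀ a, a ∉ A → l a = 0) ∧
    ∀ j, 1 ≤ j → j ≤ m → (A.filter fun a => j ≤ l a).card = α j

/-- CMB (choice of the `λ_a`). `n_a ≤ m`, `w0`, `a0`, `v_i = i u - a0` (`1 ≤ i ≤ m`),
`b_j = a0 - ∑_a min(j, m - n_a)`; `w0 = 0` or `a0 ≤ u`; and `b_m ≥ 0` or
`∑_{j=1}^m max(b_j,0) ≤ w0`. There are `λ_a ≤ m`, all zero unless `0 < a0` and `1 ≤ w0`, with
`∑_{i=1}^m (v_i - ∑_a ee m n_a λ_a i) + (w0 - ∑_a ee m n_a λ_a 0) ≤ max(w0 - ∑_{j=1}^m b_j, 0)`.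

Proof (from `G_CP`). Let `ν_a = m - n_a`, `K_i = ∑_a (i - ν_a)` (natural subtraction). For
`1 ≤ i ≤ m`: `i = min(i, ν_a) + (i - ν_a)`, so `i u - K_i = ∑ min(i, ν_a)` and
`v_i - K_i = - b_i` (integers). `b_j` is non-increasing in `j`. If `w0 = 0` or `a0 ≤ 0`: all
`λ_a = 0`. Then `ee m n_a 0 i = i - ν_a` for `i ≥ 1`, `ee m n_a 0 0 = 0`, and the left side is
`∑ max(-b_i, 0) + w0`. If `a0 ≤ 0`, all `b_i ≤ 0` and this equals `w0 - ∑ b_i`. If `w0 = 0` and
`b_m ≥ 0`, all `b_i ≥ 0` (`i ≤ m`) and it is `0`; if `w0 = 0` and `∑ max(b_j,0) ≤ 0`, all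
`b_i ≤ 0` and it is `w0 - ∑ b_i`. Otherwise `1 ≤ w0`, `0 < a0 ≤ u`. Let `A = {a : ν_a = 0}`,
`q = u - |A|`, `α_j = max(b_j, 0)`. For `m ≥ 1`, `b_1 = a0 - q ≤ |A|`, so `G_CP` applies. For
`i ≥ 1`, `∑_a ee m n_a λ_a i = K_i - #{a ∈ A : i ≤ λ_a} = K_i - α_i` (for `a ∈ A`, `ν_a = 0`:
`ee = i - 1` if `i ≤ λ_a`, else `i`; for `a ∉ A`, `λ_a = 0`), and `∑_a ee m n_a λ_a 0 =
∑_{a ∈ A} λ_a = ∑_{j=1}^m α_j` (double counting). So the left side is
`∑ max(-b_i,0) + (w0 - ∑ α_j)` (`v_i - (K_i - α_i) = -b_i + α_i = max(-b_i,0)`). If `b_m ≥ 0`: all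
`b_i ≥ 0` and it is `max(w0 - ∑ b_j, 0)`. If `∑ α_j ≤ w0` it is
`w0 + ∑ (max(-b_i,0) - max(b_i,0)) = w0 - ∑ b_i`. -/
def G_CMB : Prop := ∀ (u m : ℕ) (n : Fin u → ℕ) (w0 : ℕ) (a0 : ℤ) (v : ℕ → ℕ), (∀ a, n a ≤ m) →
  (∀ i : ℕ, 1 ≤ i → i ≤ m → (v i : ℤ) = i * u - a0) → (w0 = 0 ∨ a0 ≤ u) →
  (0 ≤ bj u m n a0 m ∨ ∑ j ∈ Finset.Icc 1 m, max (bj u m n a0 j) 0 ≤ w0) →
  ∃ l : Fin u → ℕ, (∀ a, l a ≤ m) ∧ ((∀ a, l a = 0) ∨ (0 < a0 ∧ 1 ≤ w0)) ∧
    ((∑ i ∈ Finset.range m, (v (i + 1) - ∑ a, ee m (n a) (l a) (i + 1)) +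
      (w0 - ∑ a, ee m (n a) (l a) 0) : ℕ) : ℤ) ≤
      max ((w0 : ℤ) - ∑ j ∈ Finset.Icc 1 m, bj u m n a0 j) 0

end Pool.Agent.Helper66.SB
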