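import Pool.Agent.Helper66.SB.Main
import Pool.Agent.Helper66.SB.PSI
import Pool.Agent.Helper66.SB.NUM
import Pool.Agent.Helper66.SB.CP
import Pool.Agent.Helper66.SB.CMB
import Pool.Agent.Helper12.SB.CH
import Pool.Agent.Helper12.SB.XI
import Pool.Agent.Helper13.SB.CONST
import Pool.Agent.Helper14.SB.NSA
import Pool.Agent.Helper16.SB.LIF
import Pool.Agent.Helper17.SB.GP
import Pool.Agent.Helper18.SB.PT
import Pool.Agent.Helper22.SB.BD
import Pool.Agent.Helper23.SB.SLI
import Pool.Agent.Helper28.SB.ELIM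
import Pool.Agent.Helper32.SB.ZA
import Pool.Agent.Helper36.SB.EX
import Pool.Agent.Helper46.SB.TR
import Pool.Agent.Helper48.SB.CPT
import Pool.Agent.Helper49.SB.NSB
import Pool.Agent.Helper54.SB.NEF
import Pool.Agent.Helper60.SB.STEP
import Pool.Agent.Helper63.SB.LIM
import Pool.Agent.Helper72.SB.WR
import Pool.Agent.Helper77.SB.GEN
import Pool.Agent.Helper81.SB.IRR
import Pool.Agent.Helper83.SB.BR
import Pool.Agent.Helper84.SB.SUR
import Pool.Agent.Helper85.SB.AD
import Pool.Agent.Helper86.SB.DO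
import Pool.Agent.Helper89.SB.PZ
import Pool.Agent.Helper90.SB.DEC
import Pool.Agent.Helper97.SB.LG

set_option autoImplicit false

namespace Pool.Agent.Helper66.SB

theorem finalA (hXV : G_XV) (hLOW : G_LOW) : G_MAIN := by
  have hTR := Helper46.SB.gTR
  have hPZ := Helper89.SB.gPZ hTR
  have hEX := Helper36.SB.gEX
  have hBR := Helper83.SB.gBR
  have hPT := Helper18.SB.gPT
  have hBD := Helper22.SB.gBD
  have hCONST := Helper13.SB.gCONST hBR hBD Helper28.SB.gELIM hPT
  have hGEN := Helper77.SB.gGEN (Helper72.SB.gWR hCONST) hPT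
  have hLIM := Helper63.SB.gLIM hBR (Helper86.SB.gDO hBD) Helper12.SB.gXI hXV Helper12.SB.gCH gPSI
  have hLG := Helper97.SB.gLG hLOW Helper60.SB.gSTEP
  exact main gNUM (Helper17.SB.gGP (Helper81.SB.gIRR (Helper84.SB.gSUR hLOW hLG)) Helper48.SB.gCPT
      Helper16.SB.gLIF) hEX
    (Helper54.SB.gNEF hEX) (gCMB gCP) (Helper23.SB.gSLI hGEN hLIM Helper90.SB.gDEC) hTR hPZ
    Helper85.SB.gAD Helper32.SB.gZA (Helper14.SB.gNSA hLG hPZ) (Helper49.SB.gNSB hTR)

end Pool.Agent.Helper66.SB
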