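import Pool.Agent.Helper66.SB.Defs

/-!
# Project SB (MP_d3128a_ag): goals, part B (points of the cuspidal cubic, the curve `F`, general
position, conversions). Rules as in `Goals.lean`.
-/

set_option autoImplicit false

open Module MvPolynomial

noncomputable section

namespace Pool.Agent.Helper66.SB

open Helper18.Shgh

/-- LOW (lower bound for the dimension, any points). For `n ≥ -2`:
`(n+1)(n+2) - ∑ a_i (a_i+1) ≤ 2 dim`.

Proof. As `Helper18.Cusp.YS_lower` (`Helper18/CuspDim.lean`, nine points) or `lower_bound` in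
`Helper18/ShghGen.lean`: `dim V n = (n+1)(n+2)/2` for `n ≥ -2`, and multiplicity `≥ a` at a point is
`a(a+1)/2` linear conditions (the coefficients of `tau P G` of degree `< a`, `mem_mI_pow`). -/
def G_LOW : Prop := ∀ (r : ℕ) (n : ℤ) (a : Fin r → ℕ) (P : Fin r → Fin 2 → ℂ), -2 ≤ n →
  ch2 n Finset.univ a ≤ 2 * (finrank ℂ (SP n Finset.univ P a) : ℤ)

/-- STEP (restriction to the cubic `y = x^3`). `t_i` linearly independent over `ℚ`, `n ≥ 1`,
`∑ a_i ≤ 3n`: `dim SP(n; a) ≤ dim SP(n-3; a-1) + (3n - ∑ a_i)` at the points `(t_i, t_i^3)`.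

Proof. Let `ρ : R2 → ℂ[t]`, `x ↦ t`, `y ↦ t^3`, `γ = y - x^3`. (Compare `Helper18/CuspCurve.lean`,
the same for `y^2 = x^3`.) `ρ G = 0` iff `γ ∣ G` (write `G = γ A + B(x)`, division by the monic
polynomial `γ` in `y`; `ρ B = B`). If `γ H ∈ SP(n; a)` then `deg H ≤ n - 3` (`mul_mem_V_iff` in
`Helper18/ShghPlane.lean`) and `H` has multiplicity `≥ a_i - 1` at `P_i`, because `γ ∉ mI(P_i)^2`
(`mem_of_mul_mem`, derivative in `y`). For `G ∈ SP(n; a)`: `ρ G` has degree `≤ 3n`, its coefficient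
of `t^(3n-1)` is `0` (`i + 3j = 3n-1`, `i + j ≤ n` is impossible), and `(t - t_i)^(a_i) ∣ ρ G`
(`ρ` maps `mI(P_i)` into `(t - t_i)`). The `t_i` are different, so `ρ G = Π h`,
`Π = ∏ (t - t_i)^(a_i)`, `deg h ≤ 3n - ∑ a =: e`. If `e ≥ 1`: the coefficient of `t^(3n-1)` of `Π h`
is `h_(e-1) - (∑ a_i t_i) h_e`, a nonzero functional of `h`, so the space of such `h` has dimension
`e`. If `e = 0`, `h` is a constant and the coefficient is `-(∑ a_i t_i) h`; since `n ≥ 1` some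
`a_i ≥ 1` and `∑ a_i t_i ≠ 0` by linear independence, so `h = 0`. -/
def G_STEP : Prop := ∀ (r : ℕ) (t : Fin r → ℂ), LinearIndependent ℚ t →
  ∀ (n : ℕ) (a : Fin r → ℕ), 1 ≤ n → ∑ i, a i ≤ 3 * n →
  finrank ℂ (SP (n : ℤ) Finset.univ (fun i => ga (t i)) a) ≤
    finrank ℂ (SP ((n : ℤ) - 3) Finset.univ (fun i => ga (t i)) fun i => a i - 1) +
      (3 * n - ∑ i, a i)

/-- LG (dimension at points of the cubic). `t_i` linearly independent over `ℚ`, `(n; a)` admissible,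
and `∑ a_i ≤ 3n` or at most two `a_i` are positive: `2 dim = (n+1)(n+2) - ∑ a_i(a_i+1)`.

Proof (from `G_LOW`, `G_STEP`). Upper bound by strong induction on `n`. Let `ρ` be the number of
positive `a_i`. `ρ ≤ 2`: `finrank_TP'` in `Helper18/ShghLine.lean` (two points `P`, `Q` with
`P 0 ≠ Q 0`, multiplicities `a + b ≤ n + 1` or both zero; for `ρ ≤ 1` use any auxiliary point with
multiplicity `0`; the space `SP` is contained in `TP n P Q a b`). `ρ ≥ 3`: then `n ≥ 3` (three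
positive ones have sum `≤ n`). `(n-3; a-1)` is admissible: triples clear; if `a_i, a_j ≥ 2`, there is
a third index with `a_l ≥ 1`, so `(a_i - 1) + (a_j - 1) ≤ n - a_l - 2 ≤ n - 3`; single: similarly;
`∑ (a_i - 1) = ∑ a_i - ρ ≤ 3n - 9`: clear if `ρ ≥ 9`. If `3 ≤ ρ ≤ 8`: let `c` be the third largest
`a_i` (or: sum the triple inequality over all triples of positive indices:
`∑ a_i ≤ ρ n / 3`); then `3n - ∑ a_i ≥ (9-ρ) n/3 ≥ 9 - ρ`. E.g. order the positive ones,
`a_1 ≥ a_2 ≥ a_3 ≥ ...`, `3 a_3 ≤ n`, `∑ a ≤ n + (ρ-3) a_3`, so `3 ∑ a ≤ ρ n`. By `G_STEP` and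
induction `2 dim ≤ ch2 (n-3) (a-1) + 2(3n - ∑ a) = ch2 n a` (identity
`(n+1)(n+2) - (n-2)(n-1) = 6n`, `a(a+1) - (a-1)a = 2a`, also for `a = 0`). -/
def G_LG : Prop := ∀ (r : ℕ) (t : Fin r → ℂ), LinearIndependent ℚ t →
  ∀ (n : ℤ) (a : Fin r → ℕ), Adm r n a →
  ((∑ i, (a i : ℤ) ≤ 3 * n) ∨ (Finset.univ.filter fun i => 1 ≤ a i).card ≤ 2) →
  2 * (finrank ℂ (SP n Finset.univ (fun i => ga (t i)) a) : ℤ) = ch2 n Finset.univ a

/-- SUR (prescribed restriction to the cubic). `C0 = (k; w)` a square class, `t_i` linearly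
independent over `ℚ`, `g` a polynomial of degree `≤ 3k` without the term `t^(3k-1)`, divisible by
`(t - t_i)^(w_i)` for all `i`: there is `F ∈ SP(k; w)` with `F(t, t^3) = g`. Also
`2 dim SP(k; w) = ch2 k w`.

Proof (from `G_LOW`, `G_LG`). The restriction map `ρ` of `G_STEP` maps `SP(k; w)` into the space `E`
of such `g`, of dimension `3k - ∑ w` (see `G_STEP`; `3k - ∑ w ≥ 1`; only `dim E ≤ 3k - ∑ w` is
needed), with kernel isomorphic to `SP(k-3; w-1)`. `(k-3; w-1)` satisfies the hypotheses of `G_LG`: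
`u ≥ 1` gives `w_i^2 < k^2`, `w_i ≤ k - 1`, so `w_i - 1 ≤ (k-3) + 1`; `w_i + w_j ≤ k` gives
`(w_i - 1) + (w_j - 1) ≤ (k-3) + 1`; triples: sum of three `≤ k`; `k ≥ 1`; the sum: let `ρ` be the
number of positive `w_i`; `∑ (w_i - 1) = ∑ w_i - ρ ≤ 3(k-3)` if `ρ ≥ 9`, or `3 ≤ ρ ≤ 8` (as in the
proof of `G_LG`: `3 ∑ w_i ≤ ρ k`, `k ≥ 3`); if `ρ ≤ 2` at most two of the `w_i - 1` are positive. So
`2 dim ρ(SP(k;w)) = 2 dim SP(k;w) - ch2 (k-3) (w-1) ≥ ch2 k w - ch2 (k-3) (w-1) = 2 (3k - ∑ w)`,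
hence `ρ` is onto `E`, and all inequalities are equalities. -/
def G_SUR : Prop := ∀ (r k u : ℕ) (w : Fin r → ℕ), Sq r k u w → ∀ t : Fin r → ℂ,
  LinearIndependent ℚ t →
  2 * (finrank ℂ (SP (k : ℤ) Finset.univ (fun i => ga (t i)) w) : ℤ) = ch2 k Finset.univ w ∧
  ∀ g : Polynomial ℂ, g.natDegree ≤ 3 * k → g.coeff (3 * k - 1) = 0 →
    (∀ i, (Polynomial.X - Polynomial.C (t i)) ^ w i ∣ g) →
    ∃ F ∈ SP (k : ℤ) Finset.univ (fun i => ga (t i)) w,
      (aeval ![Polynomial.X, Polynomial.X ^ 3] F : Polynomial ℂ) = g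

/-- IRR (the irreducible curve at special points). `C0 = (k; w)` a square class: there are points
`P` and a good curve `F`, and `2 dim SP(k; w) = ch2 k w` at `P`; moreover `P_i = (t_i, t_i^3)` with
`t` linearly independent over `ℚ`.

Proof (from `G_SUR`). `p = 3k - ∑ w ≥ 1`. There is a `ℚ`-linearly independent sequence `T : ℕ → ℂ`
(`ℂ` has infinite dimension over `ℚ`). `t_i = T_i` (`i < r`), `τ_j = T_(r+j)` for `j < p - 1`,
`τ_(p-1) = -∑ w_i t_i - ∑_{j<p-1} τ_j`. `g = ∏ (t - t_i)^(w_i) ∏_{j<p} (t - τ_j)`: monic of degree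
`3k`, the coefficient of `t^(3k-1)` is minus the sum of the roots, `0`. `F` from `G_SUR`.
`k ≥ 1`. The coefficient of `t^(3k)` in `F(t,t^3)` is the coefficient of `y^k` in `F` (`i + 3j = 3k`,
`i + j ≤ k` forces `i = 0`, `j = k`), so it is `1`. `F ∉ mI(P_i)^(w_i+1)`: otherwise
`(t - t_i)^(w_i+1) ∣ g`, so `t_i` is one of the `τ_j`: not for `j < p - 1` (independence is
injective), and `τ_(p-1) = t_i` is the relation `(w_i + 1) t_i + ∑_{l ≠ i} w_l t_l + ∑_{j<p-1} τ_j =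
0`, impossible. Irreducible: `F` is not a unit (degree `k ≥ 1`). Let `F = A B`. `a = deg A`,
`b = deg B`, `a + b = k`. `A(t,t^3) B(t,t^3) = g`, degrees `≤ 3a`, `≤ 3b`, so exactly `3a`, `3b`,
and the coefficient of `t^(3a-1)` of `A(t,t^3)` is `0` if `a ≥ 1`. Suppose `a ≥ 1`, `b ≥ 1`. By
unique factorization `A(t,t^3) = c ∏ (t - t_i)^(x_i) ∏_{j ∈ J} (t - τ_j)`, `x_i ≤ w_i`,
`∑ x_i + |J| = 3a` (compare root multiplicities; the elements `t_i`, `τ_j` with `w_i ≥ 1` are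
pairwise different by the same argument as above, except that `p = 1` is allowed; or use
`Multiset` divisors: `roots(A) ≤ roots(g)`), and the sum of its roots is `0`:
`∑ x_i t_i + ∑_{j∈J} τ_j = 0`. If `p - 1 ∉ J` independence gives `x = 0`, `J = ∅`, `a = 0`. If
`p - 1 ∈ J`: `∑ (x_i - w_i) t_i - ∑_{j<p-1, j∉J} τ_j = 0`, so `x = w`, `J` everything, `3a = 3k`,
`b = 0`. Contradiction. So `a = 0` or `b = 0`, i.e. `A` or `B` is a constant, a unit. -/
def G_IRR : Prop := ∀ (r k u : ℕ) (w : Fin r → ℕ), Sq r k u w →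
  ∃ (t : Fin r → ℂ) (F : R2), LinearIndependent ℚ t ∧ Good r k w (fun i => ga (t i)) F ∧
    2 * (finrank ℂ (SP (k : ℤ) Finset.univ (fun i => ga (t i)) w) : ℤ) = ch2 k Finset.univ w

/-- CPT (compactness: limits of reducible polynomials). Let `F_n → F` coefficientwise, all of degree
`≤ k`, `F` irreducible with nonzero coefficient of `y^k`, `k ≥ 1`. Then `F_n` is irreducible for all
large `n`.

Proof. Suppose `F_n` is reducible for infinitely many `n`. The coefficient of `y^k` in `F_n` is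
nonzero for large `n`, so `F_n` has degree exactly `k`, is not zero and not a unit, and
`F_n = A_n B_n` with nonunits `A_n`, `B_n`, `deg A_n = a_n ≥ 1`, `deg B_n = k - a_n ≥ 1`; pass to a
subsequence with `a_n = a`. Consider the spaces `X_a` of polynomials of degree `≤ a` as
finite-dimensional real normed spaces (coefficients indexed by `{e : e.degree ≤ a}`, sup norm).
Scale so that `‖A_n‖ = 1`. The product `X_a × X_(k-a) → X_k` is bilinear, continuous, and `AB ≠ 0`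
for `A, B ≠ 0`, so by compactness of the product of the unit spheres `‖AB‖ ≥ c ‖A‖ ‖B‖`, `c > 0`.
`F_n` is bounded, so `B_n` is bounded; a subsequence converges, `A_n → A`, `‖A‖ = 1`, `B_n → B`,
`F = A B`, `deg A ≤ a`, `deg B ≤ k - a`, `deg F = k`: both degrees are exact, `≥ 1`, so neither `A`
nor `B` is a unit: contradiction. -/
def G_CPT : Prop := ∀ (k : ℕ) (F : R2) (Fn : ℕ → R2), 1 ≤ k → Irreducible F →
  coeff (Finsupp.single 1 k) F ≠ 0 → F ∈ V (k : ℤ) → (∀ n, Fn n ∈ V (k : ℤ)) →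
  (∀ e : Fin 2 →₀ ℕ, Filter.Tendsto (fun n => coeff e (Fn n)) Filter.atTop (nhds (coeff e F))) →
  ∀ᶠ n in Filter.atTop, Irreducible (Fn n)

/-- LIF (lifting to nearby points). Let the system `(k; w)` be regular at `P0`
(`2 dim = ch2 k w`), `F0 ∈ SP(k; w)` at `P0`, and `P_n → P0`. There are `F_n ∈ SP(k; w)` at `P_n`
with `F_n → F0` coefficientwise.

Proof. Let `X` be the space of polynomials of degree `≤ k`. The conditions at `P` are the values of
the linear functionals `G ↦ coeff e (tau (P i) G)`, `e.degree < w i`; as a map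
`M(P) : X → ℂ^I`, `|I| = ∑ w_i(w_i+1)/2`, with entries polynomial (hence continuous) in `P`
(`mem_mI_pow`). `dim ker M(P0) = dim X - |I|`, so `M(P0)` is onto; choose a right inverse
`N : ℂ^I → X`, `M(P0) N = 1`. `M(P) N` is a square matrix depending continuously on `P`, invertible
near `P0`. Put `F_n = F0 - N (M(P_n) N)^(-1) M(P_n) F0`: then `M(P_n) F_n = 0` and `F_n → F0` since
`M(P_n) F0 → M(P0) F0 = 0`. (For the finitely many `n` where the matrix is not invertible take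
`F_n = 0`.) -/
def G_LIF : Prop := ∀ (r k : ℕ) (w : Fin r → ℕ) (P0 : Fin r → Fin 2 → ℂ) (F0 : R2)
  (Pn : ℕ → Fin r → Fin 2 → ℂ),
  2 * (finrank ℂ (SP (k : ℤ) Finset.univ P0 w) : ℤ) = ch2 k Finset.univ w →
  F0 ∈ SP (k : ℤ) Finset.univ P0 w → Filter.Tendsto Pn Filter.atTop (nhds P0) →
  ∃ Fn : ℕ → R2, (∀ n, Fn n ∈ SP (k : ℤ) Finset.univ (Pn n) w) ∧
    ∀ e : Fin 2 →₀ ℕ, Filter.Tendsto (fun n => coeff e (Fn n)) Filter.atTop (nhds (coeff e F0))

/-- GP (general position). `C0 = (k; w)` a square class, `Q` a property of general points: there are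
points `P` with `Q P` and a good curve `F` at `P`.

Proof (from `G_IRR`, `G_CPT`, `G_LIF`). Let `G ≠ 0` be the polynomial of `Gen r Q`, `P0`, `F0` from
`G_IRR`. There is a sequence `P_n → P0` with `G(P_n) ≠ 0` (`G` does not vanish identically on any
line `P0 + z v` for a suitable `v`: choose `v` with `G(P0 + v) ≠ 0`; the polynomial
`z ↦ G(P0 + z v)` has finitely many zeros; take `z = 1/N`, `N` large). `F_n` from `G_LIF`. For large
`n`: the coefficient of `y^k` is nonzero; `F_n ∉ mI(P_n i)^(w_i+1)`: some coefficient of degree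
`≤ w_i` of `tau (P0 i) F0` is nonzero (`mem_mI_pow`), and the coefficient of `tau (P_n i) F_n`
converges to it (it is a polynomial in the coordinates of `P_n i` and the coefficients of `F_n`, all
of degree `≤ k`); `F_n` is irreducible by `G_CPT` (`k ≥ 1` since `u ≥ 1`). -/
def G_GP : Prop := ∀ (r k u : ℕ) (w : Fin r → ℕ), Sq r k u w →
  ∀ Q : (Fin r → Fin 2 → ℂ) → Prop, Gen r Q → ∃ (P : Fin r → Fin 2 → ℂ) (F : R2),
    Q P ∧ Good r k w P F

/-- EX (exactness of multiplication by a good curve). For a good curve `F` of the class `(k; w)`,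
`k ≥ 1`: `F G ∈ SP(δ+k; μ+w) ↔ G ∈ SP(δ; μ)` for all `δ : ℤ`, `μ`; and `F ∤ F_y`, `F ≠ 0`.

Proof. Degrees: `F` has total degree exactly `k` (`mem_V`, the coefficient of `y^k`), use
`mul_mem_V_iff` in `Helper18/ShghPlane.lean`. Multiplicities: `F ∈ mI^w`, `F ∉ mI^(w+1)`:
`F G ∈ mI^(μ+w) ↔ G ∈ mI^μ` by additivity of the order (`mem_mI_pow_order` and
`MvPowerSeries.order_mul`, as in the proof of `mem_of_mul_mem`). `F_y` is nonzero (the coefficient of
`y^(k-1)` is `k` times that of `y^k`) of total degree `< k`, so `F ∤ F_y`. -/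
def G_EX : Prop := ∀ (r k : ℕ) (w : Fin r → ℕ) (P : Fin r → Fin 2 → ℂ) (F : R2), 1 ≤ k →
  Good r k w P F → F ≠ 0 ∧ ¬ F ∣ pderiv 1 F ∧
    ∀ (δ : ℤ) (μ : Fin r → ℕ) (G : R2),
      F * G ∈ SP (δ + k) Finset.univ P (fun i => μ i + w i) ↔ G ∈ SP δ Finset.univ P μ

/-- NEF. `C0 = (k; w)` a square class with good curve `F` at `P`; `D = (δ; μ)`; regularity at `P` of
`D`, `D + C0` and `j C0`, `0 ≤ j ≤ δ + 2`; `dim SP(δ; μ) ≥ 1`. Then `D.C0 = kδ - ∑ μ w ≥ 0`, and if
`F` divides a nonzero element of `SP(δ; μ)` then `D.C0 ≥ u`.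

Proof (from `G_EX`). Let `0 ≠ v ∈ W_0 = SP(δ; μ)`; write `v = F^e h`, `F ∤ h` (`e ≤ δ` as `F^e ∣ v`
has degree `≥ e`; `k ≥ 1`). `h` has degree `≤ δ - e k` and multiplicity `≥ μ_i - e w_i` (natural
subtraction) at `P_i`. For `G ∈ SP((e+1)k; (e+1)w)`: `h G ∈ W_1 = SP(δ+k; μ+w)` (degree
`δ - ek + (e+1)k`, multiplicity `(μ_i - e w_i) + (e+1) w_i ≥ μ_i + w_i`). If `h G ∈ F W_0` then
`F ∣ h G`, `F ∣ G` (prime), `G = F G'`, `G' ∈ SP(e k; e w)` by `G_EX`. So
`dim SP((e+1)k; (e+1)w) - dim SP(ek; ew) ≤ dim W_1 - dim W_0` (the map `G ↦ h G` induces an injection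
of quotients). With the regularity: `ch2((e+1)k; (e+1)w) - ch2(ek; ew) = (2e+1) u + p`,
`p = 3k - ∑ w`, and `ch2(W_1) - ch2(W_0) = 2 D.C0 + u + p`. Hence `2 D.C0 ≥ 2 e u`. If `F ∣ v` then
`e ≥ 1`. -/
def G_NEF : Prop := ∀ (r k u : ℕ) (w : Fin r → ℕ), Sq r k u w →
  ∀ (P : Fin r → Fin 2 → ℂ) (F : R2), Good r k w P F → ∀ (δ : ℕ) (μ : Fin r → ℕ),
  2 * (finrank ℂ (SP (δ : ℤ) Finset.univ P μ) : ℤ) = ch2 δ Finset.univ μ →
  2 * (finrank ℂ (SP ((δ : ℤ) + k) Finset.univ P fun i => μ i + w i) : ℤ) =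
    ch2 ((δ : ℤ) + k) Finset.univ (fun i => μ i + w i) →
  (∀ j : ℕ, j ≤ δ + 2 → 2 * (finrank ℂ (SP ((j : ℤ) * k) Finset.univ P fun i => j * w i) : ℤ) =
    ch2 ((j : ℤ) * k) Finset.univ (fun i => j * w i)) →
  1 ≤ finrank ℂ (SP (δ : ℤ) Finset.univ P μ) →
  0 ≤ (k : ℤ) * δ - ∑ i, (μ i : ℤ) * w i ∧
    ((∃ v ∈ SP (δ : ℤ) Finset.univ P μ, v ≠ 0 ∧ F ∣ v) →
      (u : ℤ) ≤ (k : ℤ) * δ - ∑ i, (μ i : ℤ) * w i)

/-- NUM (numerical identities). For a square class `(k; w)`, `D = (δ; μ)`: there is an integer `a0`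
with `2 a0 = u - 3k + ∑ w - 2 (kδ - ∑ μ w)`, and
(1) `ch2(D + (i+1)C0) - ch2(D + i C0) = 2((i+1) u - a0)`;
(2) for `n_l ≤ m`, `l < u`: `ch2(D + m C0) - ∑ n_l (n_l + 1) = ch2(D) - 2 ∑_{j=1}^m b_j`.

Proof. Parity: `u - 3k + ∑ w = (k^2 - 3k) - ∑ (w^2 - w)`. (1): expand squares, `u = k^2 - ∑ w^2`.
(2): `ch2(D + m C0) = ch2 D + 2 ∑_{i=1}^m (i u - a0)` by (1), `n(n+1) = 2 ∑_{i=1}^m (i - (m - n))`
(natural subtraction, `n ≤ m`), and `i - (i - (m-n)) = min(i, m-n)`. -/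
def G_NUM : Prop := ∀ (r k u : ℕ) (w : Fin r → ℕ), Sq r k u w → ∀ (δ : ℕ) (μ : Fin r → ℕ),
  ∃ a0 : ℤ, 2 * a0 = (u : ℤ) - 3 * k + ∑ i, (w i : ℤ) - 2 * ((k : ℤ) * δ - ∑ i, (μ i : ℤ) * w i) ∧
  (∀ i : ℕ, ch2 ((δ : ℤ) + (i + 1 : ℕ) * k) Finset.univ (fun j => μ j + (i + 1) * w j) -
    ch2 ((δ : ℤ) + (i : ℕ) * k) Finset.univ (fun j => μ j + i * w j) =
      2 * (((i : ℤ) + 1) * u - a0)) ∧
  ∀ (m : ℕ) (n : Fin u → ℕ), (∀ l, n l ≤ m) →
    ch2 ((δ : ℤ) + (m : ℕ) * k) Finset.univ (fun j => μ j + m * w j) -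
      ∑ l, (n l : ℤ) * ((n l : ℤ) + 1) =
    ch2 (δ : ℤ) Finset.univ μ - 2 * ∑ j ∈ Finset.Icc 1 m, bj u m n a0 j

/-- TR (transport along a bijection of the index types).

Proof. Rename the variables of `G` (`MvPolynomial.rename`, injective) and reindex the infimum and the
sum. -/
def G_TR : Prop := ∀ (ι κ : Type) [Fintype ι] [Fintype κ] (f : ι ≃ κ) (a : κ → ℕ) (d : ℕ),
  ZZ ι (fun i => a (f i)) d → ZZ κ a d

/-- PZ (from one configuration to general points). If at one configuration `P0` of affine points the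
dimension is at most the expected one then the system is non-special (no order on the `a_i`).

Proof (from `G_TR`). Choose a permutation `f` of `Fin s` such that `a ∘ f` is non-increasing
(`Tuple.sort`), let `m : ℕ → ℕ` be `a ∘ f` extended by `0` (so `Antitone m`), apply
`Helper18.Shgh.general_position` to `m` and the points `P0 ∘ f` (extended arbitrarily to `ℕ`); its
conclusion is `ZZ (Fin s) (a ∘ f) d` (`Helper18.Shgh.LI`, `FS`); then `G_TR`.
`2 C(d+2,2) = (d+1)(d+2)`: see `two_choose` in `Helper18/ShghFinal.lean`. -/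
def G_PZ : Prop := ∀ (s d : ℕ) (a : Fin s → ℕ) (P0 : Fin s → Fin 2 → ℂ),
  2 * (finrank ℂ (SP (d : ℤ) Finset.univ P0 a) : ℤ) ≤ max (ch2 d Finset.univ a) 0 →
  ZZ (Fin s) a d

/-- ZA (from the projective statement to general affine points).

Proof. Let `G` be the polynomial of `ZZ`. The map `(x, y, z) ↦ (z x, z y, z)` on each factor is
dominant, so `G'(x, y, z) = G(z x, z y, z)` is a nonzero polynomial (if `G(P) ≠ 0` with all
`P i 2 ≠ 0`, which exists as `G ∏ X_(i,2) ≠ 0`, then `G'` is nonzero at `x = P 0 / P 2`, ...). Fix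
values `z_i ≠ 0` such that `G'(·, ·, z)` is a nonzero polynomial in the `x_i, y_i`; this is the
polynomial for `Gen`. For affine points `P` outside its zero locus apply `ZZ` to
`z_i (P i 0, P i 1, 1)`. The dehomogenization `deh` (`Helper18/ShghGP.lean`: `deh_inj`, `deh_mem_V`,
`deh_mem_mI`) identifies forms of degree `d` in `(LI (P i))^(a i)` with `SP d univ P a`: the set of
linear forms vanishing at `z (x, y, 1)` does not depend on `z`; injectivity and one inclusion are in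
the file; conversely homogenize: for `f ∈ V d` with multiplicity `≥ a` at `(x, y)` the form
`z^d f(X/z, Y/z)` lies in the ideal `LI^a` (`mem_of_psi` in `Helper18/ShghGen.lean`), so the
dimensions are equal. (Alternatively: `dim SP ≤` (that of the forms) and `≥` by `G_LOW` in the case
`ch2 ≥ 0`.) -/
def G_ZA : Prop := ∀ (s d : ℕ) (a : Fin s → ℕ), ZZ (Fin s) a d →
  Gen s fun P => 2 * (finrank ℂ (SP (d : ℤ) Finset.univ P a) : ℤ) = max (ch2 d Finset.univ a) 0

/-- AD (adding simple points to a configuration).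

Proof. As `Helper18.Shgh.add_simple`/`add_simples` (`Helper18/ShghFinal.lean`): as long as the space
is not zero choose a point where some element does not vanish. (Transfer to `Fin`, or copy.) -/
def G_AD : Prop := ∀ (s x d : ℕ) (a : Fin s → ℕ) (P0 : Fin s → Fin 2 → ℂ),
  ∃ P1 : Fin (s + x) → Fin 2 → ℂ,
    finrank ℂ (SP (d : ℤ) Finset.univ P1 (Fin.append a fun _ => 1)) ≤
      finrank ℂ (SP (d : ℤ) Finset.univ P0 a) - x

/-- NSB (our theorem TenthQuadratic, for unordered multiplicities). Any three (or fewer) `a_i` have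
sum `≤ d`; if `38 a_j^2 ≤ ch2` for all `j ≥ 9`, or `30 a_j^2 ≤ -ch2` for all `j ≥ 9`, then
`ZZ (Fin s) a d`.

Proof (from `G_TR`). Sort as in `G_PZ`: `m` = non-increasing rearrangement extended by `0`. The tenth
value `m 9` is at most `a_j` for some `j ≥ 9`, or it is `0` (if `s ≤ 9`; if `s ≥ 10`, among the ten
indices of the ten largest values at least one is `≥ 9`, so `m 9 ≤ a_j` for it). `m 0 + m 1 + m 2 ≤
d` from the triple condition. Apply `Pool.Agent.Helper43.Gm.main_reduced : GoalI` (import `Pool.Agent.Helper43.Gm.Main2`)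
(`Helper43/Gm/Main2.lean`, statement in `Gm/Goals2.lean`): with `e = C(d+2,2) - ∑ C(m_i+1,2) =
ch2/2`: in the first case `19 m_9^2 ≤ e ≤ n + e` (if `s ≤ 9` and `e < 0` use the second alternative,
`0 ≤ -e`), in the second `15 m_9^2 ≤ -e` (if `s ≤ 9` and `e > 0` use the first). The conclusion
`Concl s m d` is `ZZ (Fin s)` of the sorted function; then `G_TR`. -/
def G_NSB : Prop := ∀ (s d : ℕ) (a : Fin s → ℕ),
  (∀ I : Finset (Fin s), I.card ≤ 3 → ∑ i ∈ I, a i ≤ d) →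
  ((∀ j : Fin s, 9 ≤ (j : ℕ) → 38 * (a j : ℤ) ^ 2 ≤ ch2 d Finset.univ a) ∨
    (∀ j : Fin s, 9 ≤ (j : ℕ) → 30 * (a j : ℤ) ^ 2 ≤ -ch2 d Finset.univ a)) →
  ZZ (Fin s) a d

/-- NSA (systems with `∑ a ≤ 3d`). Any three (or fewer) `a_i` have sum `≤ d`, `∑ a_i ≤ 3d`: the
system is non-special with non-negative `ch2`.

Proof (from `G_LG`, `G_PZ`). Take `ℚ`-linearly independent `t_i` (exist, see `G_IRR`). `(d; a)` is
admissible (`d ≥ 0`; sums of one or two are `≤ d`). `G_LG`: `2 dim = ch2` at the points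
`(t_i, t_i^3)`, so `ch2 ≥ 0`, and `G_PZ` applies. -/
def G_NSA : Prop := ∀ (s d : ℕ) (a : Fin s → ℕ),
  (∀ I : Finset (Fin s), I.card ≤ 3 → ∑ i ∈ I, a i ≤ d) → ∑ i, a i ≤ 3 * d →
  0 ≤ ch2 (d : ℤ) Finset.univ a ∧ ZZ (Fin s) a d

end Pool.Agent.Helper66.SB
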