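import Pool.Agent.Helper66.SB.Goals
import Pool.Agent.Helper66.SB.GoalsB

/-!
# Project SB (MP_d3128a_ag): assembly.
-/

set_option autoImplicit false

open Module MvPolynomial

noncomputable section

namespace Pool.Agent.Helper66.SB

open Helper18.Shgh

theorem Gen.and {r : ℕ} {Q Q' : (Fin r → Fin 2 → ℂ) → Prop} (h : Gen r Q) (h' : Gen r Q') :
    Gen r fun P => Q P ∧ Q' P := by
  obtain ⟨G, hG, h1⟩ := h
  obtain ⟨G', hG', h2⟩ := h'
  refine ⟨G * G', mul_ne_zero hG hG', fun P hP => ?_⟩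
  rw [map_mul] at hP
  exact ⟨h1 P (left_ne_zero_of_mul hP), h2 P (right_ne_zero_of_mul hP)⟩

theorem Gen.mono {r : ℕ} {Q Q' : (Fin r → Fin 2 → ℂ) → Prop} (h : Gen r Q)
    (h' : ∀ P, Q P → Q' P) : Gen r Q' := by
  obtain ⟨G, hG, h1⟩ := h
  exact ⟨G, hG, fun P hP => h' P (h1 P hP)⟩

theorem Gen.true (r : ℕ) : Gen r fun _ => True :=
  ⟨1, one_ne_zero, fun _ _ => trivial⟩

theorem Gen.lt {r : ℕ} (N : ℕ) {Q : ℕ → (Fin r → Fin 2 → ℂ) → Prop}
    (h : ∀ i < N, Gen r (Q i)) : Gen r fun P => ∀ i < N, Q i P := by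
  induction N with
  | zero => exact (Gen.true r).mono fun P _ i hi => absurd hi (Nat.not_lt_zero i)
  | succ N ih =>
    refine ((ih fun i hi => h i (Nat.lt_succ_of_lt hi)).and (h N (Nat.lt_succ_self N))).mono ?_
    rintro P ⟨h1, h2⟩ i hi
    rcases Nat.lt_succ_iff_lt_or_eq.1 hi with h3 | h3
    · exact h1 i h3
    · rw [h3]; exact h2

theorem Gen.exists {r : ℕ} {Q : (Fin r → Fin 2 → ℂ) → Prop} (h : Gen r Q) : ∃ P, Q P := by
  obtain ⟨G, hG, h1⟩ := h
  by_contra hcon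
  push Not at hcon
  apply hG
  apply MvPolynomial.funext
  intro z
  rw [map_zero]
  by_contra hz
  apply hcon (fun i j => z (i, j))
  exact h1 _ hz

/-- twice the virtual dimension plus two, with binomial coefficients -/
theorem ch2_eq {ι : Type} [Fintype ι] (d : ℕ) (a : ι → ℕ) :
    ch2 (d : ℤ) Finset.univ a =
      2 * ((Nat.choose (d + 2) 2 : ℤ) - ∑ i : ι, (Nat.choose (a i + 1) 2 : ℤ)) := by
  have h1 : 2 * (Nat.choose (d + 2) 2 : ℤ) = (d + 1) * (d + 2) := by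
    have h := two_choose (d + 1)
    push_cast at h
    rw [show d + 1 + 1 = d + 2 from rfl] at h
    linarith
  have h2 : 2 * ∑ i : ι, (Nat.choose (a i + 1) 2 : ℤ) = ∑ i : ι, (a i : ℤ) * ((a i : ℤ) + 1) := by
    rw [Finset.mul_sum]
    exact Finset.sum_congr rfl fun i _ => two_choose (a i)
  rw [ch2, mul_sub, h1, h2]

/-- nine (or fewer) numbers any three of which have sum at most `d` -/
theorem sum_le_of_tri {r : ℕ} (hr : r ≤ 9) {a : Fin r → ℕ} {d : ℕ}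
    (h : ∀ I : Finset (Fin r), I.card ≤ 3 → ∑ i ∈ I, a i ≤ d) : ∑ i, a i ≤ 3 * d := by
  let I1 : Finset (Fin r) := Finset.univ.filter fun i => (i : ℕ) < 3
  let I2 : Finset (Fin r) := Finset.univ.filter fun i => 3 ≤ (i : ℕ) ∧ (i : ℕ) < 6
  let I3 : Finset (Fin r) := Finset.univ.filter fun i => 6 ≤ (i : ℕ)
  have card_le : ∀ (I : Finset (Fin r)) (b : ℕ), (∀ i ∈ I, b ≤ (i : ℕ) ∧ (i : ℕ) < b + 3) →
      I.card ≤ 3 := by
    intro I b hI
    have h1 : (I.image fun i : Fin r => (i : ℕ)) ⊆ Finset.Ico b (b + 3) := by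
      intro j hj
      obtain ⟨i, hi, rfl⟩ := Finset.mem_image.1 hj
      exact Finset.mem_Ico.2 (hI i hi)
    have h2 := Finset.card_le_card h1
    rw [Finset.card_image_of_injective _ Fin.val_injective, Nat.card_Ico] at h2
    omega
  have h1 := h I1 (card_le I1 0 fun i hi => by
    have := (Finset.mem_filter.1 hi).2
    omega)
  have h2 := h I2 (card_le I2 3 fun i hi => by
    have := (Finset.mem_filter.1 hi).2
    omega)
  have h3 := h I3 (card_le I3 6 fun i hi => by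
    have := (Finset.mem_filter.1 hi).2
    have := i.2
    omega)
  have h4 : (Finset.univ : Finset (Fin r)) = I1 ∪ (I2 ∪ I3) := by
    ext i
    simp only [Finset.mem_univ, Finset.mem_union, true_iff, I1, I2, I3, Finset.mem_filter,
      true_and]
    omega
  have h5 : ∑ i, a i ≤ ∑ i ∈ I1, a i + (∑ i ∈ I2, a i + ∑ i ∈ I3, a i) := by
    rw [h4]
    have e1 := Finset.sum_union_inter (s₁ := I1) (s₂ := I2 ∪ I3) (f := a)
    have e2 := Finset.sum_union_inter (s₁ := I2) (s₂ := I3) (f := a)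
    omega
  omega

/-- The general structure of the systems. `B j` is twice the number `b_j` of the paper. -/
def BB (r u k δ m : ℕ) (w μ : Fin r → ℕ) (n : Fin u → ℕ) (j : ℕ) : ℤ :=
  (u : ℤ) - 3 * k + ∑ i, (w i : ℤ) - 2 * ((k : ℤ) * δ - ∑ i, (μ i : ℤ) * w i) -
    2 * ∑ l, ((min j (m - n l) : ℕ) : ℤ)

/-- one good configuration -/
def Cfg (r u k δ m : ℕ) (w μ : Fin r → ℕ) (n : Fin u → ℕ) : Prop :=
  ∃ (P : Fin r → Fin 2 → ℂ) (R : Fin u → Fin 2 → ℂ),
    2 * (finrank ℂ ↥(SP ((δ : ℤ) + (m : ℕ) * k) Finset.univ P (fun i => μ i + m * w i) ⊓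
      ⨅ a, Submodule.restrictScalars ℂ (mI (R a) ^ (n a) : Ideal R2)) : ℤ) ≤
    max (ch2 ((δ : ℤ) + (m : ℕ) * k) Finset.univ (fun j => μ j + m * w j) -
      ∑ l, (n l : ℤ) * ((n l : ℤ) + 1)) 0

theorem cfg_zero {r u k δ : ℕ} {w μ : Fin r → ℕ} {n : Fin u → ℕ} (hn : ∀ l, n l ≤ 0)
    (h : Gen r fun P => 2 * (finrank ℂ (SP (δ : ℤ) Finset.univ P μ) : ℤ) =
      max (ch2 (δ : ℤ) Finset.univ μ) 0) : Cfg r u k δ 0 w μ n := by
  obtain ⟨P, hP⟩ := h.exists
  refine ⟨P, fun _ => 0, ?_⟩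
  have e0 : ∀ l, n l = 0 := fun l => Nat.le_zero.1 (hn l)
  have e1 : ((δ : ℤ) + ((0 : ℕ) : ℤ) * k) = δ := by simp
  have e2 : (fun i => μ i + 0 * w i) = μ := by funext i; simp
  have e3 : ∑ l, (n l : ℤ) * ((n l : ℤ) + 1) = 0 :=
    Finset.sum_eq_zero fun l _ => by rw [e0 l]; simp
  rw [e1, e2, e3, sub_zero, ← hP]
  have := Submodule.finrank_mono (inf_le_left : SP (δ : ℤ) Finset.univ P μ ⊓
      ⨅ a, Submodule.restrictScalars ℂ (mI ((fun _ => 0 : Fin u → Fin 2 → ℂ) a) ^ (n a) :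
        Ideal R2) ≤ SP (δ : ℤ) Finset.univ P μ)
  exact_mod_cast Nat.mul_le_mul_left 2 this

section main

variable (hNUM : G_NUM) (hGP : G_GP) (hEX : G_EX) (hNEF : G_NEF) (hCMB : G_CMB) (hSLI : G_SLI)

include hNUM hGP hEX hNEF hCMB hSLI in
theorem cfg_pos {r u k δ m : ℕ} {w μ : Fin r → ℕ} {n : Fin u → ℕ} (hm : 1 ≤ m)
    (hS : Sq r k u w) (hn : ∀ l, n l ≤ m)
    (h1 : ∀ i ≤ m, Gen r fun P =>
      2 * (finrank ℂ (SP ((δ : ℤ) + (i : ℕ) * k) Finset.univ P fun j => μ j + i * w j) : ℤ) =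
        ch2 ((δ : ℤ) + (i : ℕ) * k) Finset.univ (fun j => μ j + i * w j))
    (h2 : ∀ j : ℕ, Gen r fun P =>
      2 * (finrank ℂ (SP ((j : ℤ) * k) Finset.univ P fun i => j * w i) : ℤ) =
        ch2 ((j : ℤ) * k) Finset.univ (fun i => j * w i))
    (h3 : 0 ≤ BB r u k δ m w μ n m ∨
      ∑ j ∈ Finset.Icc 1 m, max (BB r u k δ m w μ n j) 0 ≤ ch2 (δ : ℤ) Finset.univ μ) :
    Cfg r u k δ m w μ n := by
  obtain ⟨a0, ha0, hstep, htot⟩ := hNUM r k u w hS δ μ
  have hBB : ∀ j, BB r u k δ m w μ n j = 2 * bj u m n a0 j := by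
    intro j
    rw [BB, bj]
    linarith
  obtain ⟨P, F, ⟨hP1, hP2⟩, hF⟩ := hGP r k u w hS _
    ((Gen.lt (m + 1) fun i hi => h1 i (Nat.lt_succ_iff.1 hi)).and
      (Gen.lt (δ + 3) fun j _ => h2 j))
  have hk : 1 ≤ k := by
    rcases Nat.eq_zero_or_pos k with h | h
    · have := hS.sqr
      have := hS.pos
      subst h
      omega
    · exact h
  obtain ⟨hF0, hFy, hmul⟩ := hEX r k w P F hk hF
  let W : ℕ → Submodule ℂ R2 := fun i =>
    SP ((δ : ℤ) + (i : ℕ) * k) Finset.univ P fun j => μ j + i * w j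
  have hWf : ∀ i, FiniteDimensional ℂ (W i) := fun i => inferInstance
  have hW : ∀ (i : ℕ) (G : R2), F * G ∈ W (i + 1) ↔ G ∈ W i := by
    intro i G
    have h4 := hmul ((δ : ℤ) + (i : ℕ) * k) (fun j => μ j + i * w j) G
    have e1 : (δ : ℤ) + ((i + 1 : ℕ) : ℤ) * k = (δ : ℤ) + (i : ℕ) * k + k := by
      push_cast; ring
    have e2 : (fun j => μ j + (i + 1) * w j) = fun j => μ j + i * w j + w j := by
      funext j; ring
    change F * G ∈ SP ((δ : ℤ) + ((i + 1 : ℕ) : ℤ) * k) Finset.univ P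
      (fun j => μ j + (i + 1) * w j) ↔ _
    rw [e1, e2]
    exact h4
  have hreg : ∀ i ≤ m, 2 * (finrank ℂ (W i) : ℤ) =
      ch2 ((δ : ℤ) + (i : ℕ) * k) Finset.univ (fun j => μ j + i * w j) :=
    fun i hi => hP1 i (Nat.lt_succ_iff.2 hi)
  have hmono : ∀ i, finrank ℂ (W i) ≤ finrank ℂ (W (i + 1)) := by
    intro i
    have hinj : Function.Injective (LinearMap.mulLeft ℂ F : R2 →ₗ[ℂ] R2) := by
      intro a b hab
      exact mul_left_cancel₀ hF0 hab
    rw [← finrank_map_inj hinj (W i)]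
    apply Submodule.finrank_mono
    rintro _ ⟨G, hG, rfl⟩
    exact (hW i G).2 hG
  let v : ℕ → ℕ := fun i => finrank ℂ (W i) - finrank ℂ (W (i - 1))
  have hv : ∀ i : ℕ, 1 ≤ i → i ≤ m → (v i : ℤ) = i * u - a0 := by
    intro i hi him
    obtain ⟨j, rfl⟩ : ∃ j, i = j + 1 := ⟨i - 1, by omega⟩
    have h4 := hstep j
    have h5 := hreg (j + 1) him
    have h6 := hreg j (by omega)
    have h7 := hmono j
    have e1 : (fun j' => μ j' + (j + 1) * w j') = fun j' => μ j' + (j + 1) * w j' := rfl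
    change ((finrank ℂ (W (j + 1)) - finrank ℂ (W (j + 1 - 1)) : ℕ) : ℤ) = _
    rw [Nat.add_sub_cancel, Nat.cast_sub h7]
    rw [← h5, ← h6] at h4
    push_cast at h4 ⊢
    linarith
  have e0 : (δ : ℤ) + ((0 : ℕ) : ℤ) * k = δ := by simp
  have e0' : (fun j => μ j + 0 * w j) = μ := by funext j; simp
  have hW0 : W 0 = SP (δ : ℤ) Finset.univ P μ := by
    change SP ((δ : ℤ) + ((0 : ℕ) : ℤ) * k) Finset.univ P (fun j => μ j + 0 * w j) = _
    rw [e0, e0']
  have hreg0 : 2 * (finrank ℂ (W 0) : ℤ) = ch2 (δ : ℤ) Finset.univ μ := by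
    have := hreg 0 (Nat.zero_le _)
    rwa [e0, e0'] at this
  have hp := hS.sum
  -- the consequences of NEF
  have hnef : 1 ≤ finrank ℂ (W 0) → 0 ≤ (k : ℤ) * δ - ∑ i, (μ i : ℤ) * w i ∧
      ((∃ v ∈ W 0, v ≠ 0 ∧ F ∣ v) → (u : ℤ) ≤ (k : ℤ) * δ - ∑ i, (μ i : ℤ) * w i) := by
    intro h4
    rw [hW0] at h4 ⊢
    refine hNEF r k u w hS P F hF δ μ ?_ ?_ ?_ h4
    · rw [← hW0]; exact hreg0
    · have h5 := hreg 1 hm
      have e1 : (δ : ℤ) + ((1 : ℕ) : ℤ) * k = (δ : ℤ) + k := by simp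
      have e2 : (fun j => μ j + 1 * w j) = fun j => μ j + w j := by funext j; simp
      change 2 * (finrank ℂ (SP ((δ : ℤ) + ((1 : ℕ) : ℤ) * k) Finset.univ P
        (fun j => μ j + 1 * w j)) : ℤ) = _ at h5
      rw [e1, e2] at h5
      exact h5
    · intro j hj
      exact hP2 j (by omega)
  have hwsum : ((∑ i, w i : ℕ) : ℤ) = ∑ i, (w i : ℤ) := by push_cast; rfl
  have ha0u : finrank ℂ (W 0) = 0 ∨ a0 ≤ u := by
    rcases Nat.eq_zero_or_pos (finrank ℂ (W 0)) with h4 | h4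
    · exact Or.inl h4
    · right
      have h5 := (hnef h4).1
      have h6 : (∑ i, (w i : ℤ)) < 3 * k := by rw [← hwsum]; exact_mod_cast hp
      linarith
  have hbj : 0 ≤ bj u m n a0 m ∨
      ∑ j ∈ Finset.Icc 1 m, max (bj u m n a0 j) 0 ≤ (finrank ℂ (W 0) : ℤ) := by
    rcases h3 with h3 | h3
    · left
      rw [hBB] at h3
      linarith
    · right
      have e1 : ∑ j ∈ Finset.Icc 1 m, max (BB r u k δ m w μ n j) 0 =
          2 * ∑ j ∈ Finset.Icc 1 m, max (bj u m n a0 j) 0 := by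
        rw [Finset.mul_sum]
        refine Finset.sum_congr rfl fun j _ => ?_
        rw [hBB, mul_max_of_nonneg _ _ (by norm_num : (0 : ℤ) ≤ 2), mul_zero]
      rw [e1, ← hreg0] at h3
      linarith
  obtain ⟨l, hl1, hl2, hl3⟩ := hCMB u m n (finrank ℂ (W 0)) a0 v hn hv ha0u hbj
  have hh0 : (∀ v ∈ W 0, F ∣ v → v = 0) ∨ ∀ a, l a = 0 := by
    rcases hl2 with h4 | ⟨h4, h5⟩
    · exact Or.inr h4
    · left
      intro v hv hFv
      by_contra hv0
      have h6 := (hnef h5).2 ⟨v, hv, hv0, hFv⟩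
      have h7 : (∑ i, (w i : ℤ)) < 3 * k := by rw [← hwsum]; exact_mod_cast hp
      have h8 : (0 : ℤ) ≤ u := by positivity
      linarith
  obtain ⟨R, hR⟩ := hSLI F hF.irr hFy W hWf hW m u n l hn hl1 hh0
  refine ⟨P, R, ?_⟩
  have h4 := htot m n hn
  rw [h4]
  have h5 : ((∑ i ∈ Finset.range m, (finrank ℂ (W (i + 1)) - finrank ℂ (W i) -
        ∑ a, ee m (n a) (l a) (i + 1)) + (finrank ℂ (W 0) - ∑ a, ee m (n a) (l a) 0) : ℕ) : ℤ) ≤
      max ((finrank ℂ (W 0) : ℤ) - ∑ j ∈ Finset.Icc 1 m, bj u m n a0 j) 0 := by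
    have e1 : ∀ i, v (i + 1) = finrank ℂ (W (i + 1)) - finrank ℂ (W i) := fun i => by
      change finrank ℂ (W (i + 1)) - finrank ℂ (W (i + 1 - 1)) = _
      rw [Nat.add_sub_cancel]
    have h6 := hl3
    simp only [e1] at h6
    exact h6
  have h6 : (finrank ℂ ↥(W m ⊓ ⨅ a, Submodule.restrictScalars ℂ (mI (R a) ^ (n a) : Ideal R2)) :
      ℤ) ≤ max ((finrank ℂ (W 0) : ℤ) - ∑ j ∈ Finset.Icc 1 m, bj u m n a0 j) 0 :=
    le_trans (by exact_mod_cast hR) h5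
  have h7 : max (ch2 (δ : ℤ) Finset.univ μ - 2 * ∑ j ∈ Finset.Icc 1 m, bj u m n a0 j) 0 =
      2 * max ((finrank ℂ (W 0) : ℤ) - ∑ j ∈ Finset.Icc 1 m, bj u m n a0 j) 0 := by
    rw [mul_max_of_nonneg _ _ (by norm_num : (0 : ℤ) ≤ 2), mul_zero, mul_sub, hreg0]
  rw [h7]
  exact mul_le_mul_of_nonneg_left h6 (by norm_num)

end main

/-- from a good configuration to the statement, with `x` simple points -/
theorem zz_of_cfg (hTR : G_TR) (hPZ : G_PZ) (hAD : G_AD) {r u k δ m : ℕ} {w μ : Fin r → ℕ}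
    {n : Fin u → ℕ} (x : ℕ) (h : Cfg r u k δ m w μ n) :
    ZZ (Fin r ⊕ Fin u ⊕ Fin x)
      (Sum.elim (fun i => μ i + m * w i) (Sum.elim n fun _ => 1)) (δ + m * k) := by
  obtain ⟨P, R, h1⟩ := h
  let a : Fin (r + u) → ℕ := Fin.append (fun i => μ i + m * w i) n
  let P0 : Fin (r + u) → Fin 2 → ℂ := Fin.append P R
  have ed : (((δ + m * k : ℕ) : ℤ)) = (δ : ℤ) + (m : ℕ) * k := by push_cast; ring
  have h2 : SP (((δ + m * k : ℕ) : ℤ)) Finset.univ P0 a ≤
      SP ((δ : ℤ) + (m : ℕ) * k) Finset.univ P (fun i => μ i + m * w i) ⊓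
      ⨅ a, Submodule.restrictScalars ℂ (mI (R a) ^ (n a) : Ideal R2) := by
    intro G hG
    rw [mem_SP] at hG
    refine Submodule.mem_inf.2 ⟨?_, ?_⟩
    · rw [mem_SP]
      refine ⟨by rw [← ed]; exact hG.1, fun i _ => ?_⟩
      have := hG.2 (Fin.castAdd u i) (Finset.mem_univ _)
      simpa [P0, a] using this
    · rw [Submodule.mem_iInf]
      intro i
      have := hG.2 (Fin.natAdd r i) (Finset.mem_univ _)
      simpa [P0, a] using this
  obtain ⟨P1, hP1⟩ := hAD (r + u) x (δ + m * k) a P0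
  have h3 : (finrank ℂ (SP (((δ + m * k : ℕ) : ℤ)) Finset.univ P0 a) : ℤ) ≤
      finrank ℂ ↥(SP ((δ : ℤ) + (m : ℕ) * k) Finset.univ P (fun i => μ i + m * w i) ⊓
      ⨅ a, Submodule.restrictScalars ℂ (mI (R a) ^ (n a) : Ideal R2)) := by
    exact_mod_cast Submodule.finrank_mono h2
  have hch : ch2 ((δ + m * k : ℕ) : ℤ) Finset.univ (Fin.append a fun _ : Fin x => 1) =
      ch2 ((δ : ℤ) + (m : ℕ) * k) Finset.univ (fun j => μ j + m * w j) -
      ∑ l, (n l : ℤ) * ((n l : ℤ) + 1) - 2 * x := by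
    rw [ch2, ch2, ed, Fin.sum_univ_add, Fin.sum_univ_add]
    simp only [a, Fin.append_left, Fin.append_right]
    simp only [Nat.cast_one, one_add_one_eq_two, one_mul, Finset.sum_const, Finset.card_univ,
      Fintype.card_fin, nsmul_eq_mul]
    ring
  have h4 : ZZ (Fin (r + u + x)) (Fin.append a fun _ : Fin x => 1) (δ + m * k) := by
    apply hPZ (r + u + x) (δ + m * k) _ P1
    rw [hch]
    have h5 : ((finrank ℂ (SP (((δ + m * k : ℕ) : ℤ)) Finset.univ P1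
        (Fin.append a fun _ : Fin x => 1)) : ℕ) : ℤ) ≤
        ((finrank ℂ (SP (((δ + m * k : ℕ) : ℤ)) Finset.univ P0 a) - x : ℕ) : ℤ) := by
      exact_mod_cast hP1
    omega
  let f : Fin (r + u + x) ≃ Fin r ⊕ Fin u ⊕ Fin x :=
    (finSumFinEquiv.symm.trans (Equiv.sumCongr finSumFinEquiv.symm (Equiv.refl _))).trans
      (Equiv.sumAssoc _ _ _)
  have e1 : (fun i => (Sum.elim (fun i => μ i + m * w i) (Sum.elim n fun _ => 1) :
      Fin r ⊕ Fin u ⊕ Fin x → ℕ) (f i)) = Fin.append a fun _ : Fin x => 1 := by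
    funext i
    refine Fin.addCases (fun j => ?_) (fun j => ?_) i
    · refine Fin.addCases (fun l => ?_) (fun l => ?_) j
      · simp [f, a]
      · simp [f, a]
    · simp [f]
  refine hTR (Fin (r + u + x)) (Fin r ⊕ Fin u ⊕ Fin x) f _ _ ?_
  rw [e1]
  exact h4

/-- The hypotheses on `D` and `C0`. -/
def HD (r k δ m : ℕ) (w μ : Fin r → ℕ) : Prop :=
  ∑ i, μ i ≤ 3 * δ ∨ ∀ i ≤ m, ∀ j : Fin r, 9 ≤ (j : ℕ) →
    19 * ((μ j : ℤ) + i * w j) ^ 2 ≤
      (Nat.choose (δ + i * k + 2) 2 : ℤ) - ∑ j : Fin r, (Nat.choose (μ j + i * w j + 1) 2 : ℤ)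

/-- The main statement. -/
def G_MAIN : Prop := ∀ (r u x k δ m : ℕ) (w μ : Fin r → ℕ) (n : Fin u → ℕ),
  (∀ I : Finset (Fin r), I.card ≤ 3 → ∑ i ∈ I, w i ≤ k ∧ ∑ i ∈ I, μ i ≤ δ) →
  ∑ i, w i < 3 * k → u + ∑ i, w i ^ 2 = k ^ 2 → 1 ≤ u → (∀ l, n l ≤ m) →
  ((HD r k δ m w μ ∧ ((∀ l, m ≤ n l + 1) ∨ 0 ≤ BB r u k δ m w μ n m ∨
      ∑ j ∈ Finset.Icc 1 m, max (BB r u k δ m w μ n j) 0 ≤
        2 * ((Nat.choose (δ + 2) 2 : ℤ) - ∑ i, (Nat.choose (μ i + 1) 2 : ℤ)))) ∨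
    (m = 0 ∧ ∀ j : Fin r, 9 ≤ (j : ℕ) → 15 * (μ j : ℤ) ^ 2 ≤
        -((Nat.choose (δ + 2) 2 : ℤ) - ∑ i, (Nat.choose (μ i + 1) 2 : ℤ)))) →
  ZZ (Fin r ⊕ Fin u ⊕ Fin x)
    (Sum.elim (fun i => μ i + m * w i) (Sum.elim n fun _ => 1)) (δ + m * k)

theorem main (hNUM : G_NUM) (hGP : G_GP) (hEX : G_EX) (hNEF : G_NEF) (hCMB : G_CMB)
    (hSLI : G_SLI) (hTR : G_TR) (hPZ : G_PZ) (hAD : G_AD) (hZA : G_ZA) (hNSA : G_NSA)
    (hNSB : G_NSB) : G_MAIN := by
  intro r u x k δ m w μ n htri hsum hsqr hpos hn hor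
  apply zz_of_cfg hTR hPZ hAD x
  have hS : Sq r k u w := ⟨fun I hI => (htri I hI).1, hsum, hsqr, hpos⟩
  rcases hor with ⟨hHD, halt⟩ | ⟨hm0, hneg⟩
  swap
  · subst hm0
    apply cfg_zero hn
    apply hZA
    apply hNSB r δ μ (fun I hI => (htri I hI).2)
    right
    intro j hj
    have h1 := hneg j hj
    rw [ch2_eq]
    linarith
  -- regularity of `D + i C0`
  have htri' : ∀ i : ℕ, ∀ I : Finset (Fin r), I.card ≤ 3 →
      ∑ j ∈ I, (μ j + i * w j) ≤ δ + i * k := by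
    intro i I hI
    rw [Finset.sum_add_distrib, ← Finset.mul_sum]
    exact Nat.add_le_add (htri I hI).2 (Nat.mul_le_mul_left i (htri I hI).1)
  have ed : ∀ i : ℕ, (((δ + i * k : ℕ) : ℤ)) = (δ : ℤ) + (i : ℕ) * k := fun i => by
    push_cast; ring
  have hregA : ∀ i ≤ m, 0 ≤ ch2 (((δ + i * k : ℕ) : ℤ)) Finset.univ (fun j => μ j + i * w j) ∧
      ZZ (Fin r) (fun j => μ j + i * w j) (δ + i * k) := by
    have caseA : ∑ j, μ j ≤ 3 * δ → ∀ i ≤ m, 0 ≤ ch2 (((δ + i * k : ℕ) : ℤ)) Finset.univ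
        (fun j => μ j + i * w j) ∧ ZZ (Fin r) (fun j => μ j + i * w j) (δ + i * k) := by
      intro h1 i _
      apply hNSA r (δ + i * k) (fun j => μ j + i * w j) (htri' i)
      rw [Finset.sum_add_distrib, ← Finset.mul_sum]
      have h2 : i * ∑ j, w j ≤ i * (3 * k) := Nat.mul_le_mul_left i hsum.le
      calc ∑ j, μ j + i * ∑ j, w j ≤ 3 * δ + i * (3 * k) := Nat.add_le_add h1 h2
        _ = 3 * (δ + i * k) := by ring
    rcases hHD with h1 | h1
    · exact caseA h1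
    · rcases Nat.lt_or_ge 9 r with hr | hr
      · intro i hi
        have h2 : ∀ j : Fin r, 9 ≤ (j : ℕ) → 38 * (((μ j + i * w j : ℕ)) : ℤ) ^ 2 ≤
            ch2 (((δ + i * k : ℕ) : ℤ)) Finset.univ (fun j => μ j + i * w j) := by
          intro j hj
          have h3 := h1 i hi j hj
          rw [ch2_eq]
          push_cast at h3 ⊢
          linarith
        refine ⟨?_, hNSB r (δ + i * k) (fun j => μ j + i * w j) (htri' i) (Or.inl h2)⟩
        have h3 := h2 ⟨9, hr⟩ le_rfl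
        refine le_trans ?_ h3
        positivity
      · exact caseA (sum_le_of_tri hr fun I hI => (htri I hI).2)
  rcases Nat.eq_zero_or_pos m with hm | hm
  · subst hm
    apply cfg_zero hn
    have h1 := (hregA 0 le_rfl).2
    have h2 := hZA r (δ + 0 * k) (fun j => μ j + 0 * w j) h1
    have e1 : (fun j => μ j + 0 * w j) = μ := by funext j; simp
    rw [e1, Nat.zero_mul, Nat.add_zero] at h2
    exact h2
  apply cfg_pos hNUM hGP hEX hNEF hCMB hSLI hm hS hn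
  · intro i hi
    obtain ⟨h1, h2⟩ := hregA i hi
    have h3 := hZA r (δ + i * k) (fun j => μ j + i * w j) h2
    rw [max_eq_left h1, ed i] at h3
    exact h3
  · intro j
    have h1 := hNSA r (j * k) (fun i => j * w i) (fun I hI => by
      rw [← Finset.mul_sum]
      exact Nat.mul_le_mul_left j (htri I hI).1) (by
      rw [← Finset.mul_sum]
      calc j * ∑ i, w i ≤ j * (3 * k) := Nat.mul_le_mul_left j hsum.le
        _ = 3 * (j * k) := by ring)
    have h3 := hZA r (j * k) (fun i => j * w i) h1.2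
    rw [max_eq_left h1.1] at h3
    have e1 : (((j * k : ℕ) : ℤ)) = (j : ℤ) * k := by push_cast; ring
    rw [e1] at h3
    exact h3
  · -- the alternatives
    have h0 : 0 ≤ ch2 (δ : ℤ) Finset.univ μ := by
      have h1 := (hregA 0 (Nat.zero_le _)).1
      have e1 : (fun j => μ j + 0 * w j) = μ := by funext j; simp
      rw [e1, Nat.zero_mul, Nat.add_zero] at h1
      exact h1
    rcases halt with h1 | h1 | h1
    · -- all `m - n_l ≤ 1`
      have e1 : ∀ j ∈ Finset.Icc 1 m, BB r u k δ m w μ n j = BB r u k δ m w μ n m := by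
        intro j hj
        rw [Finset.mem_Icc] at hj
        rw [BB, BB]
        congr 2
        refine Finset.sum_congr rfl fun l _ => ?_
        have := h1 l
        have e2 : min j (m - n l) = m - n l := by omega
        have e3 : min m (m - n l) = m - n l := by omega
        rw [e2, e3]
      rcases le_total 0 (BB r u k δ m w μ n m) with h2 | h2
      · exact Or.inl h2
      · right
        rw [Finset.sum_congr rfl fun j hj => by rw [e1 j hj, max_eq_right h2]]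
        simpa using h0
    · exact Or.inl h1
    · right
      rw [ch2_eq]
      exact h1

end Pool.Agent.Helper66.SB
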